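import Pool.Agent.Q6.Dih.Defs

/-!
# Constructions of actions of dihedral groups
-/

namespace Q6.Dih

open DihedralGroup

section general

variable {G S : Type} [Group G] [MulAction G S]

lemma faithful_of_base {B : Finset S} (h : IsBase G S B) : FaithfulSMul G S := ⟨by
  intro g g' hgg
  have h1 : g'⁻¹ * g = 1 := by
    apply h
    intro x _
    rw [mul_smul, hgg x, inv_smul_smul]
  rw [inv_mul_eq_one] at h1
  exact h1.symm⟩

/-- To prove 2-closedness we may multiply the permutation by an element of the group. -/
lemma twoClosed_of_fix (x0 y0 : S)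
    (h : ∀ σ : Equiv.Perm S, (∀ x y, ∃ g : G, g • x = σ x ∧ g • y = σ y) → σ x0 = x0 → σ y0 = y0 →
      ∃ g : G, ∀ x, g • x = σ x) : TwoClosed G S := by
  intro σ hσ
  obtain ⟨g0, hg0, hg0'⟩ := hσ x0 y0
  obtain ⟨g, hg⟩ := h (σ.trans (MulAction.toPerm g0⁻¹)) (by
    intro x y
    obtain ⟨g, h1, h2⟩ := hσ x y
    refine ⟨g0⁻¹ * g, ?_, ?_⟩
    · rw [mul_smul, h1]; rfl
    · rw [mul_smul, h2]; rfl) (by
    change g0⁻¹ • σ x0 = x0
    rw [← hg0, inv_smul_smul]) (by
    change g0⁻¹ • σ y0 = y0
    rw [← hg0', inv_smul_smul])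
  refine ⟨g0 * g, fun x => ?_⟩
  have h1 : g • x = g0⁻¹ • σ x := hg x
  rw [mul_smul, h1, smul_inv_smul]

end general

/-- the homomorphism of dihedral groups given by a homomorphism of residue rings -/
def dmap {a b : ℕ} (f : ZMod a →+* ZMod b) : DihedralGroup a →* DihedralGroup b where
  toFun
    | r i => r (f i)
    | sr i => sr (f i)
  map_one' := by
    rw [one_def]
    change r (f 0) = r 0
    rw [map_zero]
  map_mul' := by
    rintro (i | i) (j | j)
    · change r (f (i + j)) = _
      rw [map_add, ← r_mul_r]
    · change sr (f (j - i)) = _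
      rw [map_sub, ← r_mul_sr]
    · change sr (f (i + j)) = _
      rw [map_add, ← sr_mul_r]
    · change r (f (j - i)) = _
      rw [map_sub, ← sr_mul_sr]

@[simp] lemma dmap_r {a b : ℕ} (f : ZMod a →+* ZMod b) (i : ZMod a) : dmap f (r i) = r (f i) := rfl

@[simp] lemma dmap_sr {a b : ℕ} (f : ZMod a →+* ZMod b) (i : ZMod a) :
    dmap f (sr i) = sr (f i) := rfl

/-- the constant of a colour -/
def cc (N : ℕ) (b : Bool) : ZMod N := if b then 1 else 0

/-- the action on a polygon: its vertices (`b = false`) and its edges (`b = true`) -/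
def pact (N : ℕ) (b : Bool) : DihedralGroup N → ZMod N → ZMod N
  | r i, x => x + i
  | sr i, x => -x - i + cc N b

@[simp] lemma pact_r (N : ℕ) (b : Bool) (i x : ZMod N) : pact N b (r i) x = x + i := rfl

@[simp] lemma pact_sr (N : ℕ) (b : Bool) (i x : ZMod N) :
    pact N b (sr i) x = -x - i + cc N b := rfl

lemma pact_mul (N : ℕ) (b : Bool) (g h : DihedralGroup N) (x : ZMod N) :
    pact N b (g * h) x = pact N b g (pact N b h x) := by
  rcases g with i | i <;> rcases h with j | j
  · rw [r_mul_r]; simp only [pact_r]; ring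
  · rw [r_mul_sr]; simp only [pact_r, pact_sr]; ring
  · rw [sr_mul_r]; simp only [pact_r, pact_sr]; ring
  · rw [sr_mul_sr]; simp only [pact_r, pact_sr]; ring

lemma pact_one (N : ℕ) (b : Bool) (x : ZMod N) : pact N b 1 x = x := by
  rw [one_def, pact_r, add_zero]

section crt

variable {ι : Type} [Fintype ι] [DecidableEq ι] {N : ι → ℕ} {n : ℕ}

/-- reduction modulo one of the factors -/
def red (hn : n = ∏ i, N i) (i : ι) : ZMod n →+* ZMod (N i) :=
  ZMod.castHom (hn ▸ Finset.dvd_prod_of_mem N (Finset.mem_univ i)) (ZMod (N i))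

lemma crt (hn : n = ∏ i, N i) (hco : Pairwise (Function.onFun Nat.Coprime N))
    (t : ∀ i, ZMod (N i)) : ∃ j : ZMod n, ∀ i, red hn i j = t i := by
  subst hn
  let e := ZMod.prodEquivPi N hco
  refine ⟨e.symm t, fun i => ?_⟩
  have h1 : (Pi.evalRingHom (fun i => ZMod (N i)) i).comp e.toRingHom = red rfl i :=
    RingHom.ext_zmod _ _
  rw [← h1]
  change e (e.symm t) i = t i
  rw [RingEquiv.apply_symm_apply]

lemma crt_inj (hn : n = ∏ i, N i) (hco : Pairwise (Function.onFun Nat.Coprime N))
    {j : ZMod n} (h : ∀ i, red hn i j = 0) : j = 0 := by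
  subst hn
  let e := ZMod.prodEquivPi N hco
  apply e.injective
  rw [map_zero]
  funext i
  have h1 : (Pi.evalRingHom (fun i => ZMod (N i)) i).comp e.toRingHom = red rfl i :=
    RingHom.ext_zmod _ _
  have h2 := h i
  rw [← h1] at h2
  exact h2

end crt

lemma one_ne_zero_zmod {N : ℕ} (h : 2 ≤ N) : (1 : ZMod N) ≠ 0 := by
  haveI : Fact (1 < N) := ⟨h⟩
  exact one_ne_zero

/-! ### Disjoint unions of regular orbits -/

section regular

variable {ι : Type} [Fintype ι] [DecidableEq ι] {N : ι → ℕ} {n : ℕ}

/-- the action on the disjoint union of the regular orbits of the quotients -/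
@[reducible] def act1 (hn : n = ∏ i, N i) : MulAction (DihedralGroup n)
    (Σ i, DihedralGroup (N i)) where
  smul g v := ⟨v.1, dmap (red hn v.1) g * v.2⟩
  one_smul v := by
    change (⟨v.1, dmap (red hn v.1) 1 * v.2⟩ : Σ i, DihedralGroup (N i)) = v
    rw [map_one, one_mul]
  mul_smul g h v := by
    change (⟨v.1, dmap (red hn v.1) (g * h) * v.2⟩ : Σ i, DihedralGroup (N i)) =
      ⟨v.1, dmap (red hn v.1) g * (dmap (red hn v.1) h * v.2)⟩
    rw [map_mul, mul_assoc]

theorem card_mem_closedSet (hn : n = ∏ i, N i) (hco : Pairwise (Function.onFun Nat.Coprime N))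
    (hN : ∀ i, 2 ≤ N i) [Nonempty ι] : Fintype.card ι ∈ closedSet (DihedralGroup n) := by
  classical
  letI := act1 hn
  have smul_def : ∀ (g : DihedralGroup n) (i : ι) (y : DihedralGroup (N i)),
    g • (⟨i, y⟩ : Σ i, DihedralGroup (N i)) = ⟨i, dmap (red hn i) g * y⟩ := fun _ _ _ => rfl
  haveI : ∀ i, NeZero (N i) := fun i => ⟨by have := hN i; omega⟩
  haveI : ∀ i, Finite (DihedralGroup (N i)) := fun i => inferInstance
  have hfin : Finite (Σ i, DihedralGroup (N i)) := inferInstance
  obtain ⟨i0⟩ := (inferInstance : Nonempty ι)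
  let E : Finset (Σ i, DihedralGroup (N i)) := Finset.univ.image (fun i => ⟨i, 1⟩)
  have hE : IsBase (DihedralGroup n) (Σ i, DihedralGroup (N i)) E := by
    intro g hg
    have h1 : ∀ i, dmap (red hn i) g = 1 := by
      intro i
      have h2 := hg ⟨i, 1⟩ (Finset.mem_image_of_mem _ (Finset.mem_univ i))
      rw [smul_def, mul_one] at h2
      exact eq_of_heq (Sigma.mk.inj h2).2
    rcases g with j | j
    · have h3 : j = 0 := by
        apply crt_inj hn hco
        intro i
        have h4 := h1 i
        rw [dmap_r, one_def] at h4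
        exact r.inj h4
      rw [h3, r_zero]
    · have h4 := h1 i0
      rw [dmap_sr, one_def] at h4
      cases h4
  haveI := faithful_of_base hE
  refine ⟨_, hfin, act1 hn, inferInstance, ?_, ?_⟩
  · apply twoClosed_of_fix (⟨i0, 1⟩ : Σ i, DihedralGroup (N i)) ⟨i0, 1⟩
    intro σ hσ h0 _
    have hz : ∀ i, ∃ z : ZMod (N i), σ ⟨i, 1⟩ = ⟨i, r z⟩ := by
      intro i
      obtain ⟨g, h1, h2⟩ := hσ ⟨i0, 1⟩ ⟨i, 1⟩
      rw [h0, smul_def, mul_one] at h1
      have h3 : dmap (red hn i0) g = 1 := eq_of_heq (Sigma.mk.inj h1).2
      rcases g with j | j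
      · exact ⟨red hn i j, by rw [← h2, smul_def, mul_one, dmap_r]⟩
      · rw [dmap_sr, one_def] at h3
        cases h3
    choose z hz using hz
    obtain ⟨j, hj⟩ := crt hn hco z
    refine ⟨r j, ?_⟩
    rintro ⟨i, y⟩
    obtain ⟨g, h1, h2⟩ := hσ ⟨i, 1⟩ ⟨i, y⟩
    rw [hz, smul_def, mul_one] at h1
    have h3 : dmap (red hn i) g = r (z i) := eq_of_heq (Sigma.mk.inj h1).2
    rw [← h2, smul_def, smul_def, h3, dmap_r, hj]
  · apply le_antisymm
    · refine (baseSize_le hE).trans (Finset.card_image_le.trans ?_)
      rw [Finset.card_univ]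
    · apply le_baseSize
      intro B hB
      have h1 : ∀ i, ∃ y, (⟨i, y⟩ : Σ i, DihedralGroup (N i)) ∈ B := by
        intro i
        by_contra hne
        push Not at hne
        obtain ⟨j, hj⟩ := crt hn hco (fun i' => if i' = i then 1 else 0)
        have h2 : (r j : DihedralGroup n) = 1 := by
          apply hB
          rintro ⟨i', y⟩ hy
          have h3 : i' ≠ i := by
            rintro rfl
            exact hne y hy
          rw [smul_def, dmap_r, hj, if_neg h3, r_zero, one_mul]
        rw [one_def] at h2
        have h3 : j = 0 := r.inj h2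
        have h4 := hj i
        rw [h3, map_zero, if_pos rfl] at h4
        exact one_ne_zero_zmod (hN i) h4.symm
      choose y hy using h1
      have h2 : (Finset.univ : Finset ι).card ≤ B.card := by
        refine Finset.card_le_card_of_injOn (fun i => ⟨i, y i⟩) (fun i _ => hy i) ?_
        intro a _ b _ hab
        exact (Sigma.mk.inj hab).1
      rw [Finset.card_univ] at h2
      exact h2

end regular

/-! ### One polygon: vertices and edges -/

section single

variable {n : ℕ}

/-- the action on the vertices and the edges of a polygon -/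
@[reducible] def act3 (n : ℕ) : MulAction (DihedralGroup n) (Bool × ZMod n) where
  smul g v := (v.1, pact n v.1 g v.2)
  one_smul v := by
    change (v.1, pact n v.1 1 v.2) = v
    rw [pact_one]
  mul_smul g h v := by
    change (v.1, pact n v.1 (g * h) v.2) = (v.1, pact n v.1 g (pact n v.1 h v.2))
    rw [pact_mul]

theorem two_mem_closedSet (hn : 2 ≤ n) : 2 ∈ closedSet (DihedralGroup n) := by
  classical
  haveI : NeZero n := ⟨by omega⟩
  letI := act3 n
  have smul_def : ∀ (g : DihedralGroup n) (b : Bool) (x : ZMod n),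
    g • ((b, x) : Bool × ZMod n) = (b, pact n b g x) := fun _ _ _ => rfl
  have hfin : Finite (Bool × ZMod n) := inferInstance
  have h10 : (1 : ZMod n) ≠ 0 := one_ne_zero_zmod hn
  have hE : IsBase (DihedralGroup n) (Bool × ZMod n) {(false, 0), (true, 0)} := by
    intro g hg
    have h1 := hg (false, 0) (by simp)
    have h2 := hg (true, 0) (by simp)
    rw [smul_def] at h1 h2
    rcases g with j | j
    · rw [pact_r, zero_add] at h1
      have h3 : j = 0 := (Prod.mk.inj h1).2
      rw [h3, r_zero]
    · rw [pact_sr] at h1 h2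
      have h3 := (Prod.mk.inj h1).2
      have h4 := (Prod.mk.inj h2).2
      simp only [cc] at h3 h4
      exfalso
      apply h10
      simp at h3 h4
      rw [h3] at h4
      simpa using h4
  haveI := faithful_of_base hE
  refine ⟨_, hfin, act3 n, inferInstance, ?_, ?_⟩
  · apply twoClosed_of_fix ((false, 0) : Bool × ZMod n) (true, 0)
    intro σ hσ h0 h1
    refine ⟨1, ?_⟩
    have key : ∀ k : ℕ, σ (false, (k : ZMod n)) = (false, (k : ZMod n)) ∧
        σ (true, (k : ZMod n)) = (true, (k : ZMod n)) := by
      intro k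
      induction k with
      | zero =>
        rw [Nat.cast_zero]
        exact ⟨h0, h1⟩
      | succ k ih =>
        obtain ⟨ih1, ih2⟩ := ih
        have h2 : σ (true, ((k + 1 : ℕ) : ZMod n)) = (true, ((k + 1 : ℕ) : ZMod n)) := by
          obtain ⟨g, h3, h4⟩ := hσ (false, (k : ZMod n)) (true, ((k + 1 : ℕ) : ZMod n))
          rw [ih1, smul_def] at h3
          rw [← h4, smul_def]
          rcases g with j | j
          · have h5 := (Prod.mk.inj h3).2
            rw [pact_r] at h5 ⊢
            have h6 : j = 0 := by linear_combination h5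
            rw [h6, add_zero]
          · exfalso
            have h5 := (Prod.mk.inj h3).2
            rw [pact_sr] at h5
            rw [smul_def, pact_sr] at h4
            simp only [cc, if_true] at h5 h4
            have h6 : -((k + 1 : ℕ) : ZMod n) - j + 1 = (k : ZMod n) := by
              push_cast
              simp only [Bool.false_eq_true, if_false] at h5
              linear_combination h5
            rw [h6, ← ih2] at h4
            have h7 := σ.injective h4
            have h8 := (Prod.mk.inj h7).2
            push_cast at h8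
            apply h10
            linear_combination -h8
        refine ⟨?_, h2⟩
        obtain ⟨g, h3, h4⟩ := hσ (true, ((k + 1 : ℕ) : ZMod n)) (false, ((k + 1 : ℕ) : ZMod n))
        rw [h2, smul_def] at h3
        rw [← h4, smul_def]
        rcases g with j | j
        · have h5 := (Prod.mk.inj h3).2
          rw [pact_r] at h5 ⊢
          have h6 : j = 0 := by linear_combination h5
          rw [h6, add_zero]
        · exfalso
          have h5 := (Prod.mk.inj h3).2
          rw [pact_sr] at h5
          rw [smul_def, pact_sr] at h4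
          simp only [cc, Bool.false_eq_true, if_true, if_false] at h5 h4
          have h6 : -((k + 1 : ℕ) : ZMod n) - j + 0 = (k : ZMod n) := by
            push_cast at h5 ⊢
            linear_combination h5
          rw [h6, ← ih1] at h4
          have h7 := σ.injective h4
          have h8 := (Prod.mk.inj h7).2
          push_cast at h8
          apply h10
          linear_combination -h8
    rintro ⟨b, x⟩
    rw [one_smul]
    have h2 := key x.val
    rw [ZMod.natCast_zmod_val] at h2
    rcases b with _ | _
    · exact h2.1.symm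
    · exact h2.2.symm
  · apply le_antisymm
    · exact (baseSize_le hE).trans Finset.card_le_two
    · apply le_baseSize
      intro B hB
      by_contra hlt
      have h1 : B.card ≤ 1 := by omega
      have h2 : ∃ v : Bool × ZMod n, B ⊆ {v} := by
        rcases Nat.le_one_iff_eq_zero_or_eq_one.1 h1 with h | h
        · rw [Finset.card_eq_zero] at h
          exact ⟨(false, 0), by rw [h]; exact Finset.empty_subset _⟩
        · obtain ⟨v, hv⟩ := Finset.card_eq_one.1 h
          exact ⟨v, by rw [hv]⟩
      obtain ⟨⟨b, x⟩, hv⟩ := h2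
      have h3 : (sr (cc n b - 2 * x) : DihedralGroup n) = 1 := by
        apply hB
        intro u hu
        have h4 := Finset.mem_singleton.1 (hv hu)
        rw [h4, smul_def, pact_sr]
        congr 1
        ring
      rw [one_def] at h3
      cases h3

end single

end Q6.Dih
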