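import Mathlib

/-!
# Base size sets and determining sets of a group
-/

namespace Q6.Dih

/-- A finite set of points `B` is a base for the action of `G` on `S` if only the identity of `G`
fixes every point of `B`. -/
def IsBase (G S : Type) [Group G] [MulAction G S] (B : Finset S) : Prop :=
  ∀ g : G, (∀ x ∈ B, g • x = x) → g = 1

/-- The base size of an action: the least number of points of a base. -/
noncomputable def baseSize (G S : Type) [Group G] [MulAction G S] : ℕ :=
  sInf {k : ℕ | ∃ B : Finset S, B.card = k ∧ IsBase G S B}

/-- The base size set `𝓑(G)`: the base sizes of the faithful actions of `G` on finite sets. -/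
def baseSizeSet (G : Type) [Group G] : Set ℕ :=
  {b | ∃ (S : Type) (_ : Finite S) (_ : MulAction G S) (_ : FaithfulSMul G S),
    baseSize G S = b}

/-- The determining set `𝓓(G)`: the base sizes of the faithful actions of `G` on the vertex set
of a finite simple graph `Γ` for which the permutations given by the elements of `G` are exactly
the automorphisms of `Γ`. -/
def detSet (G : Type) [Group G] : Set ℕ :=
  {b | ∃ (V : Type) (_ : Finite V) (Γ : SimpleGraph V) (_ : MulAction G V)
    (_ : FaithfulSMul G V),
    (∀ σ : Equiv.Perm V, (∀ u v, Γ.Adj (σ u) (σ v) ↔ Γ.Adj u v) ↔ ∃ g : G, ∀ v, g • v = σ v) ∧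
    baseSize G V = b}

/-- The action is 2-closed: every permutation which agrees with an element of the group on every
pair of points is given by an element of the group. -/
def TwoClosed (G S : Type) [Group G] [MulAction G S] : Prop :=
  ∀ σ : Equiv.Perm S, (∀ x y, ∃ g : G, g • x = σ x ∧ g • y = σ y) → ∃ g : G, ∀ x, g • x = σ x

/-- The base sizes of the faithful 2-closed actions on finite sets. -/
def closedSet (G : Type) [Group G] : Set ℕ :=
  {b | ∃ (S : Type) (_ : Finite S) (_ : MulAction G S) (_ : FaithfulSMul G S),
    TwoClosed G S ∧ baseSize G S = b}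

section basic

variable {G S : Type} [Group G] [MulAction G S]

lemma baseSize_le {B : Finset S} (h : IsBase G S B) : baseSize G S ≤ B.card :=
  Nat.sInf_le ⟨B, rfl, h⟩

lemma exists_base [Finite S] [FaithfulSMul G S] : ∃ B : Finset S, IsBase G S B := by
  classical
  haveI := Fintype.ofFinite S
  refine ⟨Finset.univ, fun g hg => ?_⟩
  exact FaithfulSMul.eq_of_smul_eq_smul (α := S) (fun x => by simpa using hg x (Finset.mem_univ x))

lemma exists_min_base [Finite S] [FaithfulSMul G S] :
    ∃ B : Finset S, B.card = baseSize G S ∧ IsBase G S B := by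
  have h : {k : ℕ | ∃ B : Finset S, B.card = k ∧ IsBase G S B}.Nonempty := by
    obtain ⟨B, hB⟩ := exists_base (G := G) (S := S)
    exact ⟨_, B, rfl, hB⟩
  exact Nat.sInf_mem h

lemma le_baseSize [Finite S] [FaithfulSMul G S] {k : ℕ}
    (h : ∀ B : Finset S, IsBase G S B → k ≤ B.card) : k ≤ baseSize G S := by
  obtain ⟨B, h1, h2⟩ := exists_min_base (G := G) (S := S)
  rw [← h1]
  exact h B h2

lemma one_le_baseSize [Finite S] [FaithfulSMul G S] [Nontrivial G] : 1 ≤ baseSize G S := by
  refine le_baseSize fun B hB => ?_
  by_contra hc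
  have h0 : B = ∅ := Finset.card_eq_zero.1 (by omega)
  subst h0
  obtain ⟨g, hg⟩ := exists_ne (1 : G)
  exact hg (hB g (by simp))

end basic

end Q6.Dih
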