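import Pool.Agent.Q6.Dih.Defs

/-!
# Encoding finitely many binary relations in a graph, keeping the base size
-/

namespace Q6.Dih

open Sum

section enc

variable {S : Type} {c : ℕ} (R : Fin c → S → S → Prop) (L M : ℕ)

/-- the basic arcs between the copies of `S` -/
def arc (x : S) (i : Fin M) (y : S) (j : Fin M) : Prop :=
  (i.val = 0 ∧ j.val ≠ 0 ∧ x = y) ∨ (i.val = 1 ∧ ∃ k : Fin c, j.val = k.val + 2 ∧ R k x y)

/-- adjacency of the encoding graph -/
def adj : Fin L ⊕ (S × Fin M) → Fin L ⊕ (S × Fin M) → Prop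
  | inl i, inl j => i ≠ j ∧ i.val + 1 ≠ j.val ∧ j.val + 1 ≠ i.val
  | inl i, inr v => i.val ≤ v.2.val
  | inr v, inl i => i.val ≤ v.2.val
  | inr v, inr w => arc R M v.1 v.2 w.1 w.2 ∨ arc R M w.1 w.2 v.1 v.2

/-- the encoding graph -/
def encGraph : SimpleGraph (Fin L ⊕ (S × Fin M)) where
  Adj := adj R L M
  symm := ⟨by
    rintro (i | v) (j | w) h
    · exact ⟨h.1.symm, h.2.2, h.2.1⟩
    · exact h
    · exact h
    · exact h.symm⟩
  loopless := ⟨by
    rintro (i | v) h
    · exact h.1 rfl
    · rcases h with h | h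
      · rcases h with ⟨h1, h2, -⟩ | ⟨h1, k, h2, -⟩
        · exact h2 h1
        · omega
      · rcases h with ⟨h1, h2, -⟩ | ⟨h1, k, h2, -⟩
        · exact h2 h1
        · omega⟩

end enc

section rigid

variable {S : Type} [Finite S] [Nonempty S] {c : ℕ} {R : Fin c → S → S → Prop} {L M : ℕ}

lemma no_cross (hL : M + Nat.card (S × Fin M) + 4 ≤ L)
    (σ : Equiv.Perm (Fin L ⊕ (S × Fin M)))
    (hσ : ∀ u v, adj R L M (σ u) (σ v) ↔ adj R L M u v) (i : Fin L) :
    ∃ j, σ (inl i) = inl j := by
  classical
  have := Fintype.ofFinite S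
  rcases h : σ (inl i) with j | v
  · exact ⟨j, rfl⟩
  · exfalso
    let T : Finset (Fin L) := Finset.univ.filter (fun j => adj R L M (inl i) (inl j))
    let W : Finset (Fin L ⊕ (S × Fin M)) :=
      (Finset.univ.filter (fun t : Fin L => t.val < M)).image inl ∪ Finset.univ.image inr
    have hT : L ≤ T.card + 3 := by
      have h1 : (Finset.univ.filter (fun j => ¬ adj R L M (inl i) (inl j))) ⊆
          ({i, ⟨i.val - 1, by omega⟩, ⟨min (i.val + 1) (L - 1), by omega⟩} : Finset (Fin L)) := by
        intro j hj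
        have hj2 : ¬ (i ≠ j ∧ i.val + 1 ≠ j.val ∧ j.val + 1 ≠ i.val) := (Finset.mem_filter.1 hj).2
        simp only [Finset.mem_insert, Finset.mem_singleton, Fin.ext_iff]
        have := j.isLt
        by_cases h1 : i = j
        · left; exact congrArg Fin.val h1.symm
        · by_cases h2 : i.val + 1 = j.val
          · right; right; omega
          · have h3 : j.val + 1 = i.val := by
              by_contra h3
              exact hj2 ⟨h1, h2, h3⟩
            right; left; omega
      have h2 := Finset.card_le_card h1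
      have h3 := h2.trans Finset.card_le_three
      have h4 := Finset.card_filter_add_card_filter_not (s := (Finset.univ : Finset (Fin L)))
        (fun j => adj R L M (inl i) (inl j))
      rw [Finset.card_univ, Fintype.card_fin] at h4
      have h5 : T.card = (Finset.univ.filter (fun j => adj R L M (inl i) (inl j))).card := rfl
      omega
    have hW : W.card ≤ M + Nat.card (S × Fin M) := by
      refine (Finset.card_union_le _ _).trans (Nat.add_le_add ?_ ?_)
      · refine Finset.card_image_le.trans ?_
        rw [Fin.card_filter_val_lt]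
        exact min_le_right _ _
      · refine Finset.card_image_le.trans ?_
        rw [Finset.card_univ, ← Nat.card_eq_fintype_card]
    have hTW : T.card ≤ W.card := by
      refine Finset.card_le_card_of_injOn (fun j => σ (inl j)) ?_ ?_
      · intro j hj
        have hj2 : adj R L M (inl i) (inl j) := (Finset.mem_filter.1 hj).2
        have h3 := (hσ _ _).2 hj2
        rw [h] at h3
        change σ (inl j) ∈ W
        rcases hs : σ (inl j) with t | w
        · rw [hs] at h3
          have h4 : t.val ≤ v.2.val := h3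
          refine Finset.mem_union_left _ (Finset.mem_image_of_mem _ ?_)
          rw [Finset.mem_filter]
          exact ⟨Finset.mem_univ _, lt_of_le_of_lt h4 v.2.isLt⟩
        · exact Finset.mem_union_right _ (Finset.mem_image_of_mem _ (Finset.mem_univ _))
      · intro a _ b _ hab
        exact inl_injective (σ.injective hab)
    omega

/-- Automorphisms of the encoding graph fix the first part and act in the same way on every copy
of `S`, by a map which respects all the relations. -/
lemma rigid (hM : M = c + 2) (hL : M + Nat.card (S × Fin M) + 4 ≤ L)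
    (σ : Equiv.Perm (Fin L ⊕ (S × Fin M)))
    (hσ : ∀ u v, adj R L M (σ u) (σ v) ↔ adj R L M u v) :
    (∀ i, σ (inl i) = inl i) ∧ ∃ φ : S → S, (∀ x j, σ (inr (x, j)) = inr (φ x, j)) ∧
      ∀ k x y, R k x y → R k (φ x) (φ y) := by
  classical
  choose p hp using no_cross (R := R) hL σ hσ
  have hpinj : Function.Injective p := by
    intro a b hab
    apply inl_injective (β := S × Fin M)
    apply σ.injective
    rw [hp, hp, hab]
  -- the first point is fixed
  have h0 : ∀ h : 0 < L, p ⟨0, h⟩ = ⟨0, h⟩ := by
    intro h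
    by_contra hne
    obtain ⟨x⟩ := (inferInstance : Nonempty S)
    set w : Fin L ⊕ (S × Fin M) := inr (x, ⟨0, by omega⟩) with hw
    have h1 : ¬ adj R L M (inl (p ⟨0, h⟩)) w := by
      intro h2
      have h3 : (p ⟨0, h⟩).val ≤ 0 := h2
      exact hne (Fin.ext (by simpa using h3))
    have h2 : ¬ adj R L M (inl ⟨0, h⟩) (σ.symm w) := by
      intro h3
      apply h1
      have h4 := (hσ _ _).2 h3
      rw [hp, Equiv.apply_symm_apply] at h4
      exact h4
    rcases hs : σ.symm w with t | v
    · have h3 : w = inl (p t) := by rw [← hp, ← hs, Equiv.apply_symm_apply]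
      rw [hw] at h3
      exact absurd h3 (by simp)
    · rw [hs] at h2
      apply h2
      change 0 ≤ v.2.val
      exact Nat.zero_le _
  have hfix : ∀ m : ℕ, ∀ h : m < L, p ⟨m, h⟩ = ⟨m, h⟩ := by
    intro m
    induction m using Nat.strong_induction_on with
    | _ m ih =>
      intro h
      rcases Nat.eq_zero_or_pos m with rfl | hm
      · exact h0 h
      · have h1 : m - 1 < L := by omega
        have h2 := ih (m - 1) (by omega) h1
        have h3 : ¬ adj R L M (inl ⟨m - 1, h1⟩) (inl ⟨m, h⟩) := by
          intro h4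
          exact h4.2.1 (show m - 1 + 1 = m by omega)
        rw [← hσ, hp, hp, h2] at h3
        have h4 : ¬ ((⟨m - 1, h1⟩ : Fin L) ≠ p ⟨m, h⟩ ∧ m - 1 + 1 ≠ (p ⟨m, h⟩).val ∧
          (p ⟨m, h⟩).val + 1 ≠ m - 1) := h3
        by_contra hne
        apply h4
        refine ⟨?_, ?_, ?_⟩
        · intro h5
          have h6 := hpinj (h2.trans h5)
          rw [Fin.mk.injEq] at h6
          omega
        · intro h5
          exact hne (Fin.ext (by simp only; omega))
        · intro h5
          have h7 := ih (m - 2) (by omega) (by omega)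
          have h8 : p ⟨m, h⟩ = ⟨m - 2, by omega⟩ := Fin.ext (by simp only; omega)
          have h6 := hpinj (h8.trans h7.symm)
          rw [Fin.mk.injEq] at h6
          omega
  have hl : ∀ i, σ (inl i) = inl i := fun i => by
    rw [hp i, hfix i.val i.isLt]
  -- the second part
  have hr : ∀ v : S × Fin M, ∃ w : S × Fin M, σ (inr v) = inr w ∧ w.2 = v.2 := by
    intro v
    rcases hs : σ (inr v) with t | w
    · exfalso
      have h1 : σ (inr v) = σ (inl t) := by rw [hs, hl]
      exact absurd (σ.injective h1) (by simp)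
    · refine ⟨w, rfl, ?_⟩
      have key : ∀ i : Fin L, i.val ≤ w.2.val ↔ i.val ≤ v.2.val := by
        intro i
        have h1 := hσ (inl i) (inr v)
        rw [hl, hs] at h1
        exact h1
      have hv := v.2.isLt
      have hw := w.2.isLt
      have h1 := key ⟨v.2.val, by omega⟩
      have h2 := key ⟨w.2.val, by omega⟩
      apply Fin.ext
      simp only at h1 h2
      omega
  choose q hq1 hq2 using hr
  have hMpos : 0 < M := by omega
  let φ : S → S := fun x => (q (x, ⟨0, hMpos⟩)).1
  have hq0 : ∀ x, q (x, ⟨0, hMpos⟩) = (φ x, ⟨0, hMpos⟩) := fun x =>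
    Prod.ext rfl (hq2 _)
  have hq : ∀ x j, q (x, j) = (φ x, j) := by
    intro x j
    refine Prod.ext ?_ (hq2 _)
    by_cases hj : j.val = 0
    · have : j = ⟨0, hMpos⟩ := Fin.ext hj
      rw [this]
    · have h1 : adj R L M (inr (x, ⟨0, hMpos⟩)) (inr (x, j)) := Or.inl (Or.inl ⟨rfl, hj, rfl⟩)
      rw [← hσ, hq1, hq1, hq0] at h1
      have h2 : (q (x, j)).2 = j := hq2 _
      rcases h1 with h1 | h1
      · rcases h1 with ⟨-, -, h3⟩ | ⟨h3, -⟩
        · exact h3.symm
        · exact absurd h3 (by simp)
      · rcases h1 with ⟨h3, -⟩ | ⟨-, k, h3, -⟩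
        · rw [h2] at h3
          exact absurd h3 hj
        · exact absurd h3 (by simp)
  refine ⟨hl, φ, fun x j => by rw [hq1, hq], fun k x y hxy => ?_⟩
  have hk := k.isLt
  have h1 : adj R L M (inr (x, ⟨1, by omega⟩)) (inr (y, ⟨k.val + 2, by omega⟩)) :=
    Or.inl (Or.inr ⟨rfl, k, rfl, hxy⟩)
  rw [← hσ, hq1, hq1, hq, hq] at h1
  rcases h1 with h1 | h1
  · rcases h1 with ⟨h3, -⟩ | ⟨-, k', h3, h4⟩
    · exact absurd h3 (by simp)
    · have : k' = k := Fin.ext (by simp only at h3; omega)
      rw [this] at h4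
      exact h4
  · rcases h1 with ⟨h3, -⟩ | ⟨h3, -⟩
    · exact absurd h3 (by simp)
    · exact absurd h3 (by simp)

end rigid

section encode

variable {G S : Type} [Group G] [MulAction G S]

/-- the action on the vertices of the encoding graph -/
@[reducible] def encAction (G S : Type) [Group G] [MulAction G S] (L M : ℕ) :
    MulAction G (Fin L ⊕ (S × Fin M)) where
  smul g v := Sum.map id (fun w => (g • w.1, w.2)) v
  one_smul v := by
    rcases v with i | w
    · rfl
    · change inr ((1 : G) • w.1, w.2) = inr w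
      rw [one_smul]
  mul_smul g h v := by
    rcases v with i | w
    · rfl
    · change inr ((g * h) • w.1, w.2) = inr (g • h • w.1, w.2)
      rw [mul_smul]

/-- Every base size of a faithful 2-closed action is in the determining set. -/
theorem closedSet_subset_detSet (G : Type) [Group G] [Nontrivial G] :
    closedSet G ⊆ detSet G := by
  classical
  rintro b ⟨S, hfin, hact, hfaith, hcl, hb⟩
  have hne : Nonempty S := by
    by_contra hempty
    rw [not_nonempty_iff] at hempty
    obtain ⟨g, hg⟩ := exists_ne (1 : G)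
    exact hg (FaithfulSMul.eq_of_smul_eq_smul (α := S) (fun x => hempty.elim x))
  obtain ⟨c, ⟨e⟩⟩ := Finite.exists_equiv_fin (S × S)
  let R : Fin c → S → S → Prop := fun k x y =>
    ∃ g : G, g • (e.symm k).1 = x ∧ g • (e.symm k).2 = y
  obtain ⟨M, hM⟩ : ∃ M, M = c + 2 := ⟨_, rfl⟩
  obtain ⟨L, hL⟩ : ∃ L, L = M + Nat.card (S × Fin M) + 4 := ⟨_, rfl⟩
  letI act : MulAction G (Fin L ⊕ (S × Fin M)) := encAction G S L M
  have sl : ∀ (g : G) (i : Fin L), g • (inl i : Fin L ⊕ (S × Fin M)) = inl i := fun _ _ => rfl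
  have sr : ∀ (g : G) (x : S) (j : Fin M),
    g • (inr (x, j) : Fin L ⊕ (S × Fin M)) = inr (g • x, j) := fun _ _ _ => rfl
  have hM0 : 0 < M := by omega
  have hfaithV : FaithfulSMul G (Fin L ⊕ (S × Fin M)) := ⟨by
    intro g h hgh
    refine FaithfulSMul.eq_of_smul_eq_smul (α := S) (fun x => ?_)
    have h1 := hgh (inr (x, ⟨0, hM0⟩))
    rw [sr, sr] at h1
    exact congrArg Prod.fst (inr_injective h1)⟩
  have hRinv : ∀ (g : G) k x y, R k x y → R k (g • x) (g • y) := by
    rintro g k x y ⟨h, h1, h2⟩
    exact ⟨g * h, by rw [mul_smul, h1], by rw [mul_smul, h2]⟩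
  have hadj : ∀ (g : G) u v, adj R L M u v → adj R L M (g • u) (g • v) := by
    intro g u v h
    have harc : ∀ (x : S) (i : Fin M) (y : S) (j : Fin M), arc R M x i y j →
        arc R M (g • x) i (g • y) j := by
      rintro x i y j (⟨h1, h2, h3⟩ | ⟨h1, k, h2, h3⟩)
      · exact Or.inl ⟨h1, h2, by rw [h3]⟩
      · exact Or.inr ⟨h1, k, h2, hRinv g k x y h3⟩
    rcases u with i | ⟨x, i⟩ <;> rcases v with j | ⟨y, j⟩
    · exact h
    · exact h
    · exact h
    · rcases h with h | h
      · exact Or.inl (harc _ _ _ _ h)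
      · exact Or.inr (harc _ _ _ _ h)
  refine ⟨Fin L ⊕ (S × Fin M), inferInstance, encGraph R L M, act, hfaithV, ?_, ?_⟩
  · intro σ
    constructor
    · intro hσ
      obtain ⟨hl, φ, hφ, hR⟩ := rigid (R := R) hM hL.ge σ hσ
      have hinj : Function.Injective φ := by
        intro x y hxy
        have h1 : σ (inr (x, ⟨0, hM0⟩)) = σ (inr (y, ⟨0, hM0⟩)) := by rw [hφ, hφ, hxy]
        exact congrArg Prod.fst (inr_injective (σ.injective h1))
      let τ : Equiv.Perm S := Equiv.ofBijective φ (Finite.injective_iff_bijective.1 hinj)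
      obtain ⟨g, hg⟩ := hcl τ (by
        intro x y
        have h1 : R (e (x, y)) x y := ⟨1, by simp, by simp⟩
        obtain ⟨g, h2, h3⟩ := hR _ _ _ h1
        rw [Equiv.symm_apply_apply] at h2 h3
        exact ⟨g, h2, h3⟩)
      refine ⟨g, ?_⟩
      rintro (i | ⟨x, j⟩)
      · rw [sl, hl]
      · rw [sr, hφ]
        exact congrArg (fun z => (inr (z, j) : Fin L ⊕ (S × Fin M))) (hg x)
    · rintro ⟨g, hg⟩ u v
      rw [← hg, ← hg]
      constructor
      · intro h
        have h1 := hadj g⁻¹ _ _ h
        rw [inv_smul_smul, inv_smul_smul] at h1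
        exact h1
      · exact hadj g u v
  · rw [← hb]
    apply le_antisymm
    · obtain ⟨B, hB1, hB2⟩ := exists_min_base (G := G) (S := S)
      rw [← hB1]
      let B' : Finset (Fin L ⊕ (S × Fin M)) := B.image (fun x => inr (x, ⟨0, hM0⟩))
      have h1 : IsBase G (Fin L ⊕ (S × Fin M)) B' := by
        intro g hg
        apply hB2
        intro x hx
        have h2 := hg (inr (x, ⟨0, hM0⟩)) (Finset.mem_image_of_mem _ hx)
        rw [sr] at h2
        exact congrArg Prod.fst (inr_injective h2)
      exact (baseSize_le h1).trans Finset.card_image_le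
    · obtain ⟨B, hB1, hB2⟩ := exists_min_base (G := G) (S := Fin L ⊕ (S × Fin M))
      rw [← hB1]
      obtain ⟨x0⟩ := hne
      let f : Fin L ⊕ (S × Fin M) → S := Sum.elim (fun _ => x0) Prod.fst
      have h1 : IsBase G S (B.image f) := by
        intro g hg
        apply hB2
        rintro (i | ⟨x, j⟩) hx
        · rfl
        · have h2 := hg x (Finset.mem_image.2 ⟨_, hx, rfl⟩)
          rw [sr, h2]
      exact (baseSize_le h1).trans Finset.card_image_le

/-- The action on the vertices of a graph whose automorphisms are given by the group is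
2-closed. -/
theorem detSet_subset_closedSet (G : Type) [Group G] : detSet G ⊆ closedSet G := by
  rintro b ⟨V, hfin, Γ, hact, hfaith, haut, hb⟩
  refine ⟨V, hfin, hact, hfaith, ?_, hb⟩
  intro σ hσ
  rw [← haut]
  intro u v
  obtain ⟨g, h1, h2⟩ := hσ u v
  rw [← h1, ← h2]
  have key : ∀ (h : G) u v, Γ.Adj (h • u) (h • v) ↔ Γ.Adj u v := by
    intro h u v
    exact (haut (MulAction.toPerm h)).2 ⟨h, fun _ => rfl⟩ u v
  exact key g u v

theorem detSet_eq_closedSet (G : Type) [Group G] [Nontrivial G] : detSet G = closedSet G :=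
  Set.Subset.antisymm (detSet_subset_closedSet G) (closedSet_subset_detSet G)

end encode

end Q6.Dih
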