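import Pool.Agent.Q6.Dih.Upper

/-!
# If an odd prime divides `n` exactly once (and `n ≠ p, 2p`), then the largest base size is not
attained by a 2-closed action
-/

namespace Q6.Dih

open DihedralGroup

theorem not_mem_closedSet {n : ℕ} [NeZero n] {p : ℕ} (hp : p.Prime) (hp2 : p ≠ 2) (hpn : p ∣ n)
    (hpp : ¬ p ^ 2 ∣ n) (hnp : n ≠ p) (hn2p : n ≠ 2 * p) :
    n.primeFactors.card + 1 ∉ closedSet (DihedralGroup n) := by
  classical
  rintro ⟨S, hfin, hact, hfaith, hcl, hb⟩
  have hn : n ≠ 0 := NeZero.ne n
  have hSne : Nonempty S := nonempty_of_faithful n S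
  set w := n.primeFactors.card with hw
  have hsmall : ∀ B : Finset S, IsBase (DihedralGroup n) S B → w + 1 ≤ B.card := by
    intro B hB
    rw [← hb]
    exact baseSize_le hB
  -- points moved by the rotations of prime order
  have h1 : ∀ q, q ∈ n.primeFactors → ∃ x : S, rot n q • x ≠ x := fun q hq =>
    exists_moved (rot_ne_one (Nat.prime_of_mem_primeFactors hq) (Nat.dvd_of_mem_primeFactors hq))
  choose! x hx using h1
  have hmem : ∀ q, q.Prime → q ∣ n → q ∈ n.primeFactors := fun q h1 h2 =>
    Nat.mem_primeFactors.2 ⟨h1, h2, hn⟩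
  -- claim 1
  have claim1 : ∀ y : S, rot n p • y ≠ y → ∀ l, l.Prime → l ∣ n → l ≠ p → rot n l • y = y := by
    intro y hy l hl hln hlp
    by_contra hne
    let T := (n.primeFactors.erase p).erase l
    have hlT : l ∈ n.primeFactors.erase p := Finset.mem_erase.2 ⟨hlp, hmem l hl hln⟩
    have hc1 : (n.primeFactors.erase p).card = w - 1 :=
      Finset.card_erase_of_mem (hmem p hp hpn)
    have hc2 : T.card = w - 1 - 1 := by
      rw [← hc1]; exact Finset.card_erase_of_mem hlT
    have hc3 : 0 < (n.primeFactors.erase p).card := Finset.card_pos.2 ⟨l, hlT⟩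
    obtain ⟨B', h2, h3⟩ := exists_base_succ (n := n) (S := S) (B := insert y (T.image x)) (by
      intro q hq hqn
      by_cases hqp : q = p
      · subst hqp; exact ⟨y, Finset.mem_insert_self _ _, hy⟩
      · by_cases hql : q = l
        · subst hql; exact ⟨y, Finset.mem_insert_self _ _, hne⟩
        · refine ⟨x q, Finset.mem_insert_of_mem (Finset.mem_image_of_mem _ ?_),
            hx q (hmem q hq hqn)⟩
          exact Finset.mem_erase.2 ⟨hql, Finset.mem_erase.2 ⟨hqp, hmem q hq hqn⟩⟩)
    have h4 := hsmall B' h3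
    have h5 : (insert y (T.image x)).card ≤ T.card + 1 :=
      (Finset.card_insert_le _ _).trans (Nat.add_le_add_right Finset.card_image_le 1)
    omega
  -- claim 2 : a reflection fixing a given point of S_p and the other chosen points
  let U : Finset S := (n.primeFactors.erase p).image x
  have hUc : U.card + 1 ≤ w := by
    have hc1 : (n.primeFactors.erase p).card = w - 1 :=
      Finset.card_erase_of_mem (hmem p hp hpn)
    have hc0 : 0 < w := Finset.card_pos.2 ⟨p, hmem p hp hpn⟩
    have : U.card ≤ (n.primeFactors.erase p).card := Finset.card_image_le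
    omega
  have hUx : ∀ q, q.Prime → q ∣ n → q ≠ p → x q ∈ U := fun q h1 h2 h3 =>
    Finset.mem_image_of_mem _ (Finset.mem_erase.2 ⟨h3, hmem q h1 h2⟩)
  have claim2 : ∀ y : S, rot n p • y ≠ y →
      ∃ j : ZMod n, (sr j : DihedralGroup n) • y = y ∧
        ∀ u ∈ U, (sr j : DihedralGroup n) • u = u := by
    intro y hy
    by_contra hne
    push Not at hne
    have hB : IsBase (DihedralGroup n) S (insert y U) := by
      apply isBase_of_no_refl
      · intro q hq hqn
        by_cases hqp : q = p
        · subst hqp; exact ⟨y, Finset.mem_insert_self _ _, hy⟩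
        · exact ⟨x q, Finset.mem_insert_of_mem (hUx q hq hqn hqp), hx q (hmem q hq hqn)⟩
      · intro j hj
        obtain ⟨u, hu, hu2⟩ := hne j (hj y (Finset.mem_insert_self _ _))
        exact hu2 (hj u (Finset.mem_insert_of_mem hu))
    have h4 := hsmall _ hB
    have h5 := Finset.card_insert_le y U
    omega
  obtain ⟨j0, hj0y, hj0⟩ := claim2 (x p) (hx p (hmem p hp hpn))
  set ρ : DihedralGroup n := sr j0 with hρ
  have hρρ : ρ * ρ = 1 := by rw [hρ, sr_mul_sr, sub_self, r_zero]
  have claim3 : ∀ y : S, rot n p • y ≠ y → ∃ k : ℕ, ρ • y = (rot n p) ^ k • y := by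
    intro y hy
    obtain ⟨j, hjy, hj⟩ := claim2 y hy
    have h1 : j - j0 ∈ fixSub (n := n) (U : Set S) := by
      rw [mem_fixSub]
      intro u hu
      rw [← sr_mul_sr, mul_smul, hj u (by simpa using hu)]
      exact hj0 u (by simpa using hu)
    obtain ⟨k, hk⟩ := eq_mul_of_mem _ hp hpn hpp (by
      intro q hq hqn hqp hmem2
      exact hx q (hmem q hq hqn) (hmem2 (x q) (by simpa using hUx q hq hqn hqp))) h1
    refine ⟨k, ?_⟩
    have h2 : ∀ k : ℕ, (rot n p) ^ k = r (k • ((n / p : ℕ) : ZMod n)) := by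
      intro k
      induction k with
      | zero => rw [pow_zero, zero_smul, r_zero]
      | succ k ih => rw [pow_succ, ih, r_mul_r, succ_nsmul]
    rw [h2, ← hk, ← sr_mul_sr, mul_smul, hjy]
  -- conjugation
  have hconj : (rot n p) * ρ = ρ * (rot n p)⁻¹ := by
    rw [hρ, inv_r, r_mul_sr, sr_mul_r, sub_eq_add_neg]
  have hmoved : ∀ y : S, rot n p • y = y → rot n p • ρ • y = ρ • y := by
    intro y hy
    rw [← mul_smul, hconj, mul_smul]
    congr 1
    rw [inv_smul_eq_iff, hy]
  have hmoved2 : ∀ y : S, rot n p • y ≠ y → rot n p • ρ • y ≠ ρ • y := by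
    intro y hy hc
    have h1 := hmoved _ hc
    rw [← mul_smul ρ ρ, hρρ, one_smul] at h1
    exact hy h1
  -- the permutation
  let f : S → S := fun y => if rot n p • y = y then y else ρ • y
  have hf1 : ∀ y, rot n p • y = y → f y = y := fun y hy => if_pos hy
  have hf2 : ∀ y, rot n p • y ≠ y → f y = ρ • y := fun y hy => if_neg hy
  have hinv : Function.Involutive f := by
    intro y
    by_cases hy : rot n p • y = y
    · rw [hf1 y hy, hf1 y hy]
    · rw [hf2 y hy, hf2 _ (hmoved2 y hy), ← mul_smul, hρρ, one_smul]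
  obtain ⟨g, hg⟩ := hcl hinv.toPerm (by
    intro y z
    change ∃ g : DihedralGroup n, g • y = f y ∧ g • z = f z
    by_cases hy : rot n p • y = y
    · by_cases hz : rot n p • z = z
      · exact ⟨1, by rw [hf1 y hy, one_smul], by rw [hf1 z hz, one_smul]⟩
      · obtain ⟨k, hk⟩ := claim3 z hz
        refine ⟨(rot n p) ^ k, ?_, by rw [hf2 z hz, hk]⟩
        rw [hf1 y hy]
        exact MulAction.mem_stabilizer_iff.1
          (pow_mem (MulAction.mem_stabilizer_iff.2 hy : rot n p ∈ MulAction.stabilizer _ y) k)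
    · by_cases hz : rot n p • z = z
      · obtain ⟨k, hk⟩ := claim3 y hy
        refine ⟨(rot n p) ^ k, by rw [hf2 y hy, hk], ?_⟩
        rw [hf1 z hz]
        exact MulAction.mem_stabilizer_iff.1
          (pow_mem (MulAction.mem_stabilizer_iff.2 hz : rot n p ∈ MulAction.stabilizer _ z) k)
      · exact ⟨ρ, by rw [hf2 y hy], by rw [hf2 z hz]⟩)
  have hg' : ∀ y, g • y = f y := hg
  have hxp := hx p (hmem p hp hpn)
  rcases g with i | i
  · -- a rotation
    have h1 : rot n p • rot n p • ρ • x p = ρ • x p := by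
      have ha := hg' (x p)
      rw [hf2 _ hxp] at ha
      have hm : rot n p • rot n p • x p ≠ rot n p • x p := fun h => hxp (by
        have := congrArg (fun z => (rot n p)⁻¹ • z) h
        simpa using this)
      have hb' := hg' (rot n p • x p)
      rw [hf2 _ hm] at hb'
      have hcomm : (r i : DihedralGroup n) * rot n p = rot n p * r i := by
        rw [r_mul_r, r_mul_r, add_comm]
      rw [← mul_smul, hcomm, mul_smul, ha] at hb'
      -- rot • ρ • x = ρ • rot • x = rot⁻¹ • ρ • x
      have h3 : ρ * rot n p = (rot n p)⁻¹ * ρ := by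
        rw [hρ, inv_r, r_mul_sr, sr_mul_r, sub_neg_eq_add]
      rw [← mul_smul ρ, h3, mul_smul] at hb'
      rw [hb', smul_inv_smul]
    set z := ρ • x p with hz
    have hzm : rot n p • z ≠ z := hmoved2 _ hxp
    have h2 : (rot n p) ^ 2 ∈ MulAction.stabilizer (DihedralGroup n) z := by
      rw [MulAction.mem_stabilizer_iff, pow_two, mul_smul]
      exact h1
    have hpow : (rot n p) ^ p = 1 := by
      have h3 : ∀ k : ℕ, (rot n p) ^ k = r (k • ((n / p : ℕ) : ZMod n)) := by
        intro k
        induction k with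
        | zero => rw [pow_zero, zero_smul, r_zero]
        | succ k ih => rw [pow_succ, ih, r_mul_r, succ_nsmul]
      rw [h3, nsmul_eq_mul, ← Nat.cast_mul, Nat.mul_div_cancel' hpn, ZMod.natCast_self, r_zero]
    obtain ⟨m, hm⟩ : ∃ m, p = 2 * m + 1 := hp.odd_of_ne_two hp2
    have h4 : rot n p ∈ MulAction.stabilizer (DihedralGroup n) z := by
      have h5 : (rot n p) ^ (2 * m + 1) * ((rot n p) ^ 2)⁻¹ ^ m = rot n p := by
        rw [pow_succ', pow_mul, mul_assoc, inv_pow, mul_inv_cancel, mul_one]
      rw [← hm, hpow, one_mul] at h5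
      rw [← h5]
      exact pow_mem (inv_mem h2) m
    exact hzm (MulAction.mem_stabilizer_iff.1 h4)
  · -- a reflection
    have h1 : ∀ y : S, rot n p • y = y → (sr i : DihedralGroup n) • y = y := by
      intro y hy
      rw [hg' y, hf1 y hy]
    have h2 : ∀ y : S, rot n p • y = y → (r (-2) : DihedralGroup n) • y = y := by
      intro y hy
      have hy2 : rot n p • (r (-1) : DihedralGroup n) • y = (r (-1) : DihedralGroup n) • y := by
        rw [← mul_smul, r_mul_r, add_comm, ← r_mul_r, mul_smul, hy]
      have h3 := h1 _ hy2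
      have h4 : (r (-2) : DihedralGroup n) = sr i * (r 1 * sr i * r (-1)) := by
        rw [r_mul_sr, sr_mul_r, sr_mul_sr]
        congr 1
        ring
      rw [h4, mul_smul, mul_smul, mul_smul, h3, ← mul_smul (r 1), r_mul_r, add_neg_cancel, r_zero,
        one_smul, h1 y hy]
    -- a suitable prime
    obtain ⟨l, hl, hln, hlp, k, hk⟩ : ∃ l, l.Prime ∧ l ∣ n ∧ l ≠ p ∧
        ∃ k : ℤ, ((n / l : ℕ) : ZMod n) = k • (-2 : ZMod n) := by
      obtain ⟨m, hm⟩ := hpn
      have hm1 : m ≠ 1 := by rintro rfl; exact hnp (by rw [hm, mul_one])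
      have hm2 : m ≠ 2 := by rintro rfl; exact hn2p (by rw [hm, mul_comm])
      have hm0 : m ≠ 0 := by rintro rfl; exact hn (by rw [hm, mul_zero])
      have hpm : ¬ p ∣ m := by
        rintro ⟨t, ht⟩
        exact hpp ⟨t, by rw [hm, ht]; ring⟩
      have heven : ∀ l, l.Prime → l ∣ m → (2 ∣ n / l) →
          ∃ k : ℤ, ((n / l : ℕ) : ZMod n) = k • (-2 : ZMod n) := by
        rintro l - - ⟨t, ht⟩
        refine ⟨-t, ?_⟩
        rw [ht, zsmul_eq_mul]
        push_cast
        ring
      by_cases hodd : ∃ l, l.Prime ∧ l ∣ m ∧ l ≠ 2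
      · obtain ⟨l, hl, hlm, hl2⟩ := hodd
        refine ⟨l, hl, ?_, ?_, ?_⟩
        · rw [hm]; exact Dvd.dvd.mul_left hlm p
        · rintro rfl; exact hpm hlm
        · by_cases h2n : 2 ∣ n
          · apply heven l hl hlm
            have h5 : n = l * (n / l) :=
              (Nat.mul_div_cancel' (by rw [hm]; exact Dvd.dvd.mul_left hlm p)).symm
            rw [h5] at h2n
            rcases (Nat.Prime.dvd_mul Nat.prime_two).1 h2n with h6 | h6
            · exact absurd ((Nat.prime_dvd_prime_iff_eq Nat.prime_two hl).1 h6) (Ne.symm hl2)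
            · exact h6
          · -- n odd : 2 is invertible
            have hodd2 : n % 2 = 1 := by omega
            obtain ⟨t, ht⟩ : ∃ t, n = 2 * t + 1 := ⟨n / 2, by omega⟩
            refine ⟨((t * (n / l) : ℕ) : ℤ), ?_⟩
            have h6 : ((2 * t + 1 : ℕ) : ZMod n) = 0 := by rw [← ht]; exact ZMod.natCast_self n
            push_cast at h6
            rw [natCast_zsmul, nsmul_eq_mul, Nat.cast_mul]
            have h7 : (2 * (t : ZMod n)) = -1 := by linear_combination h6
            linear_combination (((n / l : ℕ) : ZMod n)) * h7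
      · push Not at hodd
        -- m is a power of two, at least 4
        obtain ⟨l, hl, hlm⟩ := Nat.exists_prime_and_dvd hm1
        have hl2 := hodd l hl hlm
        subst hl2
        obtain ⟨m', hm'⟩ := hlm
        have hm'1 : m' ≠ 1 := by rintro rfl; exact hm2 (by rw [hm'])
        obtain ⟨l', hl', hlm'⟩ := Nat.exists_prime_and_dvd hm'1
        have hl'2 := hodd l' hl' (by rw [hm']; exact Dvd.dvd.mul_left hlm' 2)
        subst hl'2
        obtain ⟨m'', hm''⟩ := hlm'
        refine ⟨2, Nat.prime_two, ?_, Ne.symm hp2, ?_⟩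
        · rw [hm, hm']; exact ⟨p * m', by ring⟩
        · apply heven 2 Nat.prime_two ⟨m', hm'⟩
          rw [hm, hm', hm'']
          refine ⟨p * m'', ?_⟩
          have : p * (2 * (2 * m'')) = 2 * (2 * (p * m'')) := by ring
          rw [this, Nat.mul_div_cancel_left _ (by norm_num)]
    have h5 : rot n l = (r (-2) : DihedralGroup n) ^ k := by
      have h6 : ∀ a : ZMod n, ∀ k : ℤ, (r a : DihedralGroup n) ^ k = r (k • a) := by
        intro a k
        induction k with
        | zero => rw [zpow_zero, zero_smul, r_zero]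
        | succ k ih => rw [zpow_add_one, ih, r_mul_r, add_smul, one_smul]
        | pred k ih =>
          rw [zpow_sub_one, ih, inv_r, r_mul_r, sub_smul, one_smul, sub_eq_add_neg]
      rw [h6, ← hk]
    apply rot_ne_one hl hln
    apply FaithfulSMul.eq_of_smul_eq_smul (α := S)
    intro y
    rw [one_smul]
    by_cases hy : rot n p • y = y
    · rw [h5]
      exact MulAction.mem_stabilizer_iff.1
          (zpow_mem (MulAction.mem_stabilizer_iff.2 (h2 y hy) :
            (r (-2) : DihedralGroup n) ∈ MulAction.stabilizer _ y) k)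
    · exact claim1 y hy l hl hln hlp

end Q6.Dih
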