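import Pool.Agent.Q6.Dih.Constr

/-!
# Several polygons, coupled by regular orbits of smaller dihedral groups
-/

namespace Q6.Dih

open DihedralGroup Sum

section poly

variable {ι : Type} [Fintype ι] [DecidableEq ι] {N M : ι → ℕ} {n : ℕ}

/-- reduction modulo a divisor of one of the factors -/
def mred (hM : ∀ i, M i ∣ N i) (i : ι) : ZMod (N i) →+* ZMod (M i) :=
  ZMod.castHom (hM i) (ZMod (M i))

/-- the set of points: vertices and edges of `N i`-gons, and regular orbits of the dihedral
groups of order `2 (M i)` -/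
abbrev Pts (N M : ι → ℕ) : Type := (Σ i, Bool × ZMod (N i)) ⊕ (Σ i, DihedralGroup (M i))

/-- the action -/
@[reducible] def act2 (hn : n = ∏ i, N i) (hM : ∀ i, M i ∣ N i) :
    MulAction (DihedralGroup n) (Pts N M) where
  smul g v := Sum.map
    (fun w => ⟨w.1, (w.2.1, pact (N w.1) w.2.1 (dmap (red hn w.1) g) w.2.2)⟩)
    (fun w => ⟨w.1, dmap (mred hM w.1) (dmap (red hn w.1) g) * w.2⟩) v
  one_smul v := by
    rcases v with v | v
    · change (inl ⟨v.1, (v.2.1, pact (N v.1) v.2.1 (dmap (red hn v.1) 1) v.2.2)⟩ : Pts N M) =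
        inl v
      rw [map_one, pact_one]
    · change (inr ⟨v.1, dmap (mred hM v.1) (dmap (red hn v.1) 1) * v.2⟩ : Pts N M) = inr v
      rw [map_one, map_one, one_mul]
  mul_smul g h v := by
    rcases v with v | v
    · change (inl ⟨v.1, (v.2.1, pact (N v.1) v.2.1 (dmap (red hn v.1) (g * h)) v.2.2)⟩ :
        Pts N M) = inl ⟨v.1, (v.2.1, pact (N v.1) v.2.1 (dmap (red hn v.1) g)
          (pact (N v.1) v.2.1 (dmap (red hn v.1) h) v.2.2))⟩
      rw [map_mul, pact_mul]
    · change (inr ⟨v.1, dmap (mred hM v.1) (dmap (red hn v.1) (g * h)) * v.2⟩ : Pts N M) =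
        inr ⟨v.1, dmap (mred hM v.1) (dmap (red hn v.1) g) *
          (dmap (mred hM v.1) (dmap (red hn v.1) h) * v.2)⟩
      rw [map_mul, map_mul, mul_assoc]

variable (hn : n = ∏ i, N i) (hco : Pairwise (Function.onFun Nat.Coprime N))
    (hN : ∀ i, 2 ≤ N i) (hM : ∀ i, M i ∣ N i)

omit [DecidableEq ι] in
lemma act2_inl (g : DihedralGroup n) (i : ι) (b : Bool) (x : ZMod (N i)) :
    letI := act2 hn hM
    g • (inl ⟨i, (b, x)⟩ : Pts N M) = inl ⟨i, (b, pact (N i) b (dmap (red hn i) g) x)⟩ := rfl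

omit [DecidableEq ι] in
lemma act2_inr (g : DihedralGroup n) (i : ι) (y : DihedralGroup (M i)) :
    letI := act2 hn hM
    g • (inr ⟨i, y⟩ : Pts N M) = inr ⟨i, dmap (mred hM i) (dmap (red hn i) g) * y⟩ := rfl

omit [Fintype ι] [DecidableEq ι] in
lemma inl_inj {i : ι} {b b' : Bool} {x x' : ZMod (N i)}
    (h : (inl ⟨i, (b, x)⟩ : Pts N M) = inl ⟨i, (b', x')⟩) : b = b' ∧ x = x' := by
  have h1 := eq_of_heq (Sigma.mk.inj (inl_injective h)).2
  exact Prod.mk.inj h1

omit [Fintype ι] [DecidableEq ι] in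
lemma inr_inj {i : ι} {y y' : DihedralGroup (M i)}
    (h : (inr ⟨i, y⟩ : Pts N M) = inr ⟨i, y'⟩) : y = y' :=
  eq_of_heq (Sigma.mk.inj (inr_injective h)).2

include hco hN in
theorem poly_base (i0 : ι) : letI := act2 hn hM
    ∃ B : Finset (Pts N M), B.card ≤ Fintype.card ι + 1 ∧
      IsBase (DihedralGroup n) (Pts N M) B := by
  classical
  letI := act2 hn hM
  refine ⟨insert (inl ⟨i0, (true, 0)⟩) (Finset.univ.image (fun i => inl ⟨i, (false, 0)⟩)), ?_, ?_⟩
  · refine (Finset.card_insert_le _ _).trans (Nat.add_le_add_right ?_ 1)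
    exact Finset.card_image_le.trans (by rw [Finset.card_univ])
  · intro g hg
    have h1 := hg _ (Finset.mem_insert_self _ _)
    have h2 : ∀ i, g • (inl ⟨i, (false, 0)⟩ : Pts N M) = inl ⟨i, (false, 0)⟩ := fun i =>
      hg _ (Finset.mem_insert_of_mem (Finset.mem_image_of_mem _ (Finset.mem_univ i)))
    rcases g with j | j
    · have h3 : j = 0 := by
        apply crt_inj hn hco
        intro i
        have h4 := (inl_inj (h2 i)).2
        rwa [dmap_r, pact_r, zero_add] at h4
      rw [h3, r_zero]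
    · exfalso
      have h3 := (inl_inj h1).2
      have h4 := (inl_inj (h2 i0)).2
      rw [dmap_sr, pact_sr] at h3 h4
      simp only [cc, Bool.false_eq_true, if_true, if_false] at h3 h4
      exact one_ne_zero_zmod (hN i0) (by linear_combination h3 - h4)

include hco hN in
theorem poly_lower (hMN : ∀ i, M i ≠ 0 ∧ M i < N i) {B : Finset (Pts N M)}
    (hB : letI := act2 hn hM; IsBase (DihedralGroup n) (Pts N M) B) :
    Fintype.card ι + 1 ≤ B.card := by
  classical
  letI := act2 hn hM
  have h1 : ∀ i, ∃ b x, (inl ⟨i, (b, x)⟩ : Pts N M) ∈ B := by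
    intro i
    by_contra hne
    push Not at hne
    obtain ⟨j, hj⟩ := crt hn hco (fun i' => if i' = i then (M i : ZMod (N i')) else 0)
    have h2 : (r j : DihedralGroup n) = 1 := by
      apply hB
      rintro (⟨i', b, x⟩ | ⟨i', y⟩) hy
      · have h3 : i' ≠ i := by
          rintro rfl
          exact hne b x hy
        rw [act2_inl, dmap_r, hj, if_neg h3, pact_r, add_zero]
      · rw [act2_inr, dmap_r, hj, dmap_r]
        by_cases h3 : i' = i
        · subst h3
          rw [if_pos rfl, mred, map_natCast, ZMod.natCast_self, r_zero, one_mul]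
        · rw [if_neg h3, map_zero, r_zero, one_mul]
    rw [one_def] at h2
    have h3 : j = 0 := r.inj h2
    have h4 := hj i
    rw [h3, map_zero, if_pos rfl, eq_comm, ZMod.natCast_eq_zero_iff] at h4
    have h5 := Nat.le_of_dvd (Nat.pos_of_ne_zero (hMN i).1) h4
    have h6 := (hMN i).2
    omega
  choose b x hbx using h1
  let Y : Finset (Pts N M) := Finset.univ.image (fun i => inl ⟨i, (b i, x i)⟩)
  have hYB : Y ⊆ B := by
    intro v hv
    obtain ⟨i, -, rfl⟩ := Finset.mem_image.1 hv
    exact hbx i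
  have hYc : Y.card = Fintype.card ι := by
    rw [← Finset.card_univ]
    apply Finset.card_image_of_injective
    intro a a' h
    exact (Sigma.mk.inj (inl_injective h)).1
  by_contra hlt
  have hYB2 : Y = B := Finset.eq_of_subset_of_card_le hYB (by omega)
  obtain ⟨j, hj⟩ := crt hn hco (fun i => cc (N i) (b i) - 2 * x i)
  have h2 : (sr j : DihedralGroup n) = 1 := by
    apply hB
    intro v hv
    rw [← hYB2] at hv
    obtain ⟨i, -, rfl⟩ := Finset.mem_image.1 hv
    rw [act2_inl, dmap_sr, hj, pact_sr]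
    congr 3
    ring
  rw [one_def] at h2
  cases h2

include hco hN in
/-- the base size of the action on the polygons -/
theorem poly_baseSize [Nonempty ι] (hMN : ∀ i, M i ≠ 0 ∧ M i < N i) : letI := act2 hn hM
    FaithfulSMul (DihedralGroup n) (Pts N M) ∧
    baseSize (DihedralGroup n) (Pts N M) = Fintype.card ι + 1 := by
  classical
  letI := act2 hn hM
  haveI : ∀ i, NeZero (N i) := fun i => ⟨by have := hN i; omega⟩
  haveI : ∀ i, NeZero (M i) := fun i => ⟨(hMN i).1⟩
  haveI : ∀ i, Finite (DihedralGroup (M i)) := fun i => inferInstance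
  obtain ⟨i0⟩ := (inferInstance : Nonempty ι)
  obtain ⟨B, hB1, hB2⟩ := poly_base hn hco hN hM i0
  haveI := faithful_of_base hB2
  refine ⟨inferInstance, le_antisymm ((baseSize_le hB2).trans hB1) ?_⟩
  exact le_baseSize fun B hB => poly_lower hn hco hN hM hMN hB

lemma const_of_succ {N : ℕ} [NeZero N] {α : Type} (f : ZMod N → α) (h : ∀ x, f (x + 1) = f x)
    (x : ZMod N) : f x = f 0 := by
  have key : ∀ k : ℕ, f (k : ZMod N) = f 0 := by
    intro k
    induction k with
    | zero => rw [Nat.cast_zero]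
    | succ k ih => rw [Nat.cast_succ, h, ih]
  have h2 := key x.val
  rwa [ZMod.natCast_zmod_val] at h2

include hco hN in
/-- the action on the polygons is 2-closed if they are coupled by regular orbits of dihedral
groups of order at least four -/
theorem poly_twoClosed [Nonempty ι] (hM2 : ∀ i, 2 ≤ M i) : letI := act2 hn hM
    TwoClosed (DihedralGroup n) (Pts N M) := by
  classical
  letI := act2 hn hM
  haveI : ∀ i, NeZero (N i) := fun i => ⟨by have := hN i; omega⟩
  obtain ⟨i0⟩ := (inferInstance : Nonempty ι)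
  apply twoClosed_of_fix (inr ⟨i0, 1⟩ : Pts N M) (inr ⟨i0, 1⟩)
  intro σ hσ h0 _
  -- the images of the base points of the regular orbits
  have hz : ∀ i, ∃ z : ZMod (M i), σ (inr ⟨i, 1⟩) = inr ⟨i, r z⟩ := by
    intro i
    obtain ⟨g, h1, h2⟩ := hσ (inr ⟨i0, 1⟩) (inr ⟨i, 1⟩)
    rw [h0, act2_inr, mul_one] at h1
    have h3 := inr_inj h1
    rcases g with j | j
    · exact ⟨mred hM i (red hn i j), by rw [← h2, act2_inr, mul_one, dmap_r, dmap_r]⟩
    · rw [dmap_sr, dmap_sr, one_def] at h3
      cases h3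
  choose z hz using hz
  -- the points of the regular orbits
  have hreg : ∀ i y, σ (inr ⟨i, y⟩) = inr ⟨i, r (z i) * y⟩ := by
    intro i y
    obtain ⟨g, h1, h2⟩ := hσ (inr ⟨i, 1⟩) (inr ⟨i, y⟩)
    rw [hz, act2_inr, mul_one] at h1
    rw [← h2, act2_inr, inr_inj h1]
  -- the points of the polygons
  have ht : ∀ i b x, ∃ t : ZMod (N i), σ (inl ⟨i, (b, x)⟩) = inl ⟨i, (b, x + t)⟩ ∧
      mred hM i t = z i := by
    intro i b x
    obtain ⟨g, h1, h2⟩ := hσ (inr ⟨i, 1⟩) (inl ⟨i, (b, x)⟩)
    rw [hz, act2_inr, mul_one] at h1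
    have h3 := inr_inj h1
    rcases g with j | j
    · refine ⟨red hn i j, by rw [← h2, act2_inl, dmap_r, pact_r], ?_⟩
      rw [dmap_r, dmap_r] at h3
      exact r.inj h3
    · rw [dmap_sr, dmap_sr] at h3
      cases h3
  choose t ht1 ht2 using ht
  have h01 : ∀ i x, t i true x = t i false x := by
    intro i x
    obtain ⟨g, h1, h2⟩ := hσ (inl ⟨i, (false, x)⟩) (inl ⟨i, (true, x)⟩)
    rw [ht1, act2_inl] at h1 h2
    have h3 := (inl_inj h1).2
    have h4 := (inl_inj h2).2
    rcases g with j | j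
    · rw [dmap_r, pact_r] at h3 h4
      linear_combination h3 - h4
    · exfalso
      rw [dmap_sr, pact_sr] at h3 h4
      simp only [cc, Bool.false_eq_true, if_true, if_false] at h3 h4
      have h5 : t i true x - t i false x = 1 := by linear_combination h3 - h4
      have h6 := congrArg (mred hM i) h5
      rw [map_sub, ht2, ht2, sub_self, map_one] at h6
      exact one_ne_zero_zmod (hM2 i) h6.symm
  have h10 : ∀ i x, t i true (x + 1) = t i false x := by
    intro i x
    obtain ⟨g, h1, h2⟩ := hσ (inl ⟨i, (false, x)⟩) (inl ⟨i, (true, x + 1)⟩)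
    rw [ht1, act2_inl] at h1 h2
    have h3 := (inl_inj h1).2
    have h4 := (inl_inj h2).2
    rcases g with j | j
    · rw [dmap_r, pact_r] at h3 h4
      linear_combination h3 - h4
    · exfalso
      rw [dmap_sr, pact_sr] at h3 h4
      simp only [cc, Bool.false_eq_true, if_true, if_false] at h3 h4
      have h5 : t i false x - t i true (x + 1) = 1 := by linear_combination h4 - h3
      have h6 := congrArg (mred hM i) h5
      rw [map_sub, ht2, ht2, sub_self, map_one] at h6
      exact one_ne_zero_zmod (hM2 i) h6.symm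
  have hconst : ∀ i x, t i false x = t i false 0 := fun i x =>
    const_of_succ (fun x => t i false x) (fun x => by rw [← h01, h10]) x
  obtain ⟨j, hj⟩ := crt hn hco (fun i => t i false 0)
  refine ⟨r j, ?_⟩
  rintro (⟨i, b, x⟩ | ⟨i, y⟩)
  · rw [act2_inl, dmap_r, pact_r, hj, ht1]
    rcases b with _ | _
    · rw [hconst i x]
    · rw [h01, hconst i x]
  · rw [act2_inr, dmap_r, dmap_r, hj, ht2, hreg]

/-- The base size `|ι| + 1` belongs to the base size set. -/
theorem succ_mem_baseSizeSet [Nonempty ι] (hn : n = ∏ i, N i)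
    (hco : Pairwise (Function.onFun Nat.Coprime N)) (hN : ∀ i, 2 ≤ N i) :
    Fintype.card ι + 1 ∈ baseSizeSet (DihedralGroup n) := by
  classical
  haveI : ∀ i, NeZero (N i) := fun i => ⟨by have := hN i; omega⟩
  have h := poly_baseSize (M := fun _ => 1) hn hco hN (fun i => one_dvd _)
    (fun i => ⟨one_ne_zero, hN i⟩)
  exact ⟨Pts N (fun _ => 1), inferInstance, act2 hn _, h.1, h.2⟩

/-- The base size `|ι| + 1` is attained by a 2-closed action if every factor `N i` has a proper
divisor `M i ≥ 2`. -/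
theorem succ_mem_closedSet [Nonempty ι] (hn : n = ∏ i, N i)
    (hco : Pairwise (Function.onFun Nat.Coprime N)) (hM : ∀ i, M i ∣ N i)
    (hM2 : ∀ i, 2 ≤ M i) (hMN : ∀ i, M i < N i) :
    Fintype.card ι + 1 ∈ closedSet (DihedralGroup n) := by
  classical
  have hN : ∀ i, 2 ≤ N i := fun i => (hM2 i).trans (hMN i).le
  haveI : ∀ i, NeZero (N i) := fun i => ⟨by have := hN i; omega⟩
  haveI : ∀ i, NeZero (M i) := fun i => ⟨by have := hM2 i; omega⟩
  have h := poly_baseSize (M := M) hn hco hN hM
    (fun i => ⟨by have := hM2 i; omega, hMN i⟩)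
  exact ⟨Pts N M, inferInstance, act2 hn _, h.1, poly_twoClosed hn hco hN hM hM2, h.2⟩

end poly

end Q6.Dih
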