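import Pool.Agent.Q6.Dih.Constr

/-!
# Adding a direct factor of order two
-/

namespace Q6.Dih

open DihedralGroup Sum

/-- the cyclic group of order two -/
abbrev C2 : Type := Multiplicative (ZMod 2)

theorem closedSet_mono_iso {G H : Type} [Group G] [Group H] (e : G ≃* H) :
    closedSet G ⊆ closedSet H := by
  rintro b ⟨S, hfin, hact, hfaith, hcl, hb⟩
  letI act : MulAction H S := MulAction.compHom S e.symm.toMonoidHom
  have hs : ∀ (h : H) (x : S), h • x = (e.symm h) • x := fun _ _ => rfl
  have hbase : ∀ B : Finset S, IsBase H S B ↔ IsBase G S B := by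
    intro B
    constructor
    · intro hB g hg
      have h1 := hB (e g) (fun x hx => by rw [hs, MulEquiv.symm_apply_apply]; exact hg x hx)
      exact (MulEquiv.map_eq_one_iff e).1 h1
    · intro hB h hh
      have h1 := hB (e.symm h) (fun x hx => by rw [← hs]; exact hh x hx)
      exact (MulEquiv.map_eq_one_iff e.symm).1 h1
  refine ⟨S, hfin, act, ⟨?_⟩, ?_, ?_⟩
  · intro h h' hh
    apply e.symm.injective
    exact FaithfulSMul.eq_of_smul_eq_smul (α := S) hh
  · intro σ hσ
    obtain ⟨g, hg⟩ := hcl σ (by
      intro x y
      obtain ⟨h, h1, h2⟩ := hσ x y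
      exact ⟨e.symm h, h1, h2⟩)
    refine ⟨e g, fun x => ?_⟩
    rw [hs, MulEquiv.symm_apply_apply]
    exact hg x
  · rw [← hb]
    unfold baseSize
    congr 1
    ext k
    constructor
    · rintro ⟨B, h1, h2⟩
      exact ⟨B, h1, (hbase B).1 h2⟩
    · rintro ⟨B, h1, h2⟩
      exact ⟨B, h1, (hbase B).2 h2⟩

/-- the action of the product with a group of order two, with two more points -/
@[reducible] def actC2 (G S : Type) [Group G] [MulAction G S] : MulAction (G × C2) (S ⊕ ZMod 2) where
  smul g v := Sum.map (fun x => g.1 • x) (fun t => Multiplicative.toAdd g.2 + t) v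
  one_smul v := by
    rcases v with v | t
    · change (inl ((1 : G) • v) : S ⊕ ZMod 2) = inl v
      rw [one_smul]
    · change (inr (0 + t) : S ⊕ ZMod 2) = inr t
      rw [zero_add]
  mul_smul g h v := by
    rcases v with v | t
    · change (inl ((g.1 * h.1) • v) : S ⊕ ZMod 2) = inl (g.1 • h.1 • v)
      rw [mul_smul]
    · change (inr ((Multiplicative.toAdd g.2 + Multiplicative.toAdd h.2) + t) : S ⊕ ZMod 2) =
        inr (Multiplicative.toAdd g.2 + (Multiplicative.toAdd h.2 + t))
      rw [add_assoc]

theorem succ_mem_closedSet_prod {G : Type} [Group G] {b : ℕ} (h : b ∈ closedSet G) :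
    b + 1 ∈ closedSet (G × C2) := by
  classical
  obtain ⟨S, hfin, hact, hfaith, hcl, hb⟩ := h
  letI act := actC2 G S
  have sl : ∀ (g : G × C2) (x : S), g • (inl x : S ⊕ ZMod 2) = inl (g.1 • x) := fun _ _ => rfl
  have sr : ∀ (g : G × C2) (t : ZMod 2),
    g • (inr t : S ⊕ ZMod 2) = inr (Multiplicative.toAdd g.2 + t) := fun _ _ => rfl
  obtain ⟨B, hB1, hB2⟩ := exists_min_base (G := G) (S := S)
  have hE : IsBase (G × C2) (S ⊕ ZMod 2) (insert (inr 0) (B.image inl)) := by
    intro g hg
    have h1 := hg (inr 0) (Finset.mem_insert_self _ _)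
    rw [sr, add_zero] at h1
    have h2 : g.1 = 1 := by
      apply hB2
      intro x hx
      have h3 := hg (inl x) (Finset.mem_insert_of_mem (Finset.mem_image_of_mem _ hx))
      rw [sl] at h3
      exact inl_injective h3
    exact Prod.ext h2 (inr_injective h1)
  haveI := faithful_of_base hE
  refine ⟨S ⊕ ZMod 2, inferInstance, act, inferInstance, ?_, ?_⟩
  · intro σ hσ
    have h1 : ∀ x : S, ∃ y : S, σ (inl x) = inl y := by
      intro x
      obtain ⟨g, h1, -⟩ := hσ (inl x) (inl x)
      exact ⟨g.1 • x, by rw [← h1, sl]⟩
    choose f hf using h1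
    have hinj : Function.Injective f := by
      intro x y hxy
      have h2 : σ (inl x) = σ (inl y) := by rw [hf, hf, hxy]
      exact inl_injective (σ.injective h2)
    obtain ⟨g, hg⟩ := hcl (Equiv.ofBijective f (Finite.injective_iff_bijective.1 hinj)) (by
      intro x y
      obtain ⟨g, h1, h2⟩ := hσ (inl x) (inl y)
      rw [sl, hf] at h1 h2
      exact ⟨g.1, inl_injective h1, inl_injective h2⟩)
    obtain ⟨g0, h2, -⟩ := hσ (inr 0) (inr 0)
    rw [sr, add_zero] at h2
    refine ⟨(g, g0.2), ?_⟩
    rintro (x | t)
    · rw [sl, hf]
      exact congrArg inl (hg x)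
    · obtain ⟨g1, h3, h4⟩ := hσ (inr 0) (inr t)
      rw [sr, add_zero, ← h2] at h3
      rw [← h4, sr, sr, inr_injective h3]
  · apply le_antisymm
    · refine (baseSize_le hE).trans ((Finset.card_insert_le _ _).trans ?_)
      refine Nat.add_le_add_right (Finset.card_image_le.trans ?_) 1
      rw [hB1, hb]
    · apply le_baseSize
      intro B' hB'
      let P : Finset S := B'.preimage inl inl_injective.injOn
      have hP : IsBase G S P := by
        intro g hg
        have h1 : (g, (1 : C2)) = 1 := by
          apply hB'
          rintro (x | t) hx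
          · rw [sl]
            exact congrArg inl (hg x (Finset.mem_preimage.2 hx))
          · rw [sr]
            change (inr (0 + t) : S ⊕ ZMod 2) = inr t
            rw [zero_add]
        exact congrArg Prod.fst h1
      have h2 : ∃ t : ZMod 2, (inr t : S ⊕ ZMod 2) ∈ B' := by
        by_contra hne
        push Not at hne
        have h1 : ((1 : G), (Multiplicative.ofAdd (1 : ZMod 2))) = 1 := by
          apply hB'
          rintro (x | t) hx
          · rw [sl]
            change (inl ((1 : G) • x) : S ⊕ ZMod 2) = inl x
            rw [one_smul]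
          · exact absurd hx (hne t)
        have h3 : Multiplicative.ofAdd (1 : ZMod 2) = 1 := congrArg Prod.snd h1
        have h4 : (1 : ZMod 2) = 0 := h3
        exact absurd h4 (by decide)
      obtain ⟨t, ht⟩ := h2
      have h3 : insert (inr t) (P.image inl) ⊆ B' := by
        intro v hv
        rcases Finset.mem_insert.1 hv with rfl | hv
        · exact ht
        · obtain ⟨x, hx, rfl⟩ := Finset.mem_image.1 hv
          exact Finset.mem_preimage.1 hx
      have h4 := Finset.card_le_card h3
      rw [Finset.card_insert_of_notMem (by simp), Finset.card_image_of_injective _ inl_injective]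
        at h4
      have h5 := baseSize_le hP
      rw [hb] at h5
      omega

/-- `D_{2m}` is the direct product of `D_m` and a group of order two, for odd `m`. -/
theorem dihedral_iso {m : ℕ} (hm : m % 2 = 1) :
    Nonempty (DihedralGroup m × C2 ≃* DihedralGroup (m * 2)) := by
  have hco : Nat.Coprime m 2 :=
    Nat.Coprime.symm ((Nat.Prime.coprime_iff_not_dvd Nat.prime_two).2 (by omega))
  let e := ZMod.chineseRemainder hco
  let f1 : ZMod (m * 2) →+* ZMod m := (RingHom.fst _ _).comp e.toRingHom
  let f2 : ZMod (m * 2) →+* ZMod 2 := (RingHom.snd _ _).comp e.toRingHom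
  have hneg : ∀ a b : ZMod 2, b - a = a + b := by decide
  let F : DihedralGroup (m * 2) →* DihedralGroup m × C2 :=
    { toFun := fun g => (dmap f1 g, match g with
        | r i => Multiplicative.ofAdd (f2 i)
        | sr i => Multiplicative.ofAdd (f2 i))
      map_one' := by
        refine Prod.ext (map_one _) ?_
        change f2 0 = 0
        exact map_zero _
      map_mul' := by
        intro g h
        refine Prod.ext (map_mul _ _ _) ?_
        rcases g with i | i <;> rcases h with j | j
        · change f2 (i + j) = f2 i + f2 j
          exact map_add _ _ _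
        · change f2 (j - i) = f2 i + f2 j
          rw [map_sub, hneg]
        · change f2 (i + j) = f2 i + f2 j
          exact map_add _ _ _
        · change f2 (j - i) = f2 i + f2 j
          rw [map_sub, hneg] }
  have hF : Function.Bijective F := by
    constructor
    · rintro (i | i) (j | j) h
      · have h1 : f1 i = f1 j := r.inj (congrArg Prod.fst h)
        have h2 : f2 i = f2 j :=
          congrArg (fun z : DihedralGroup m × C2 => Multiplicative.toAdd z.2) h
        have h3 : e i = e j := Prod.ext h1 h2
        rw [e.injective h3]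
      · exact absurd (congrArg Prod.fst h) (by
          change (r (f1 i) : DihedralGroup m) ≠ sr (f1 j)
          intro h; cases h)
      · exact absurd (congrArg Prod.fst h) (by
          change (sr (f1 i) : DihedralGroup m) ≠ r (f1 j)
          intro h; cases h)
      · have h1 : f1 i = f1 j := sr.inj (congrArg Prod.fst h)
        have h2 : f2 i = f2 j :=
          congrArg (fun z : DihedralGroup m × C2 => Multiplicative.toAdd z.2) h
        have h3 : e i = e j := Prod.ext h1 h2
        rw [e.injective h3]
    · rintro ⟨g, c⟩
      rcases g with a | a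
      · refine ⟨r (e.symm (a, Multiplicative.toAdd c)), ?_⟩
        have h1 := e.apply_symm_apply (a, Multiplicative.toAdd c)
        refine Prod.ext ?_ ?_
        · change (r (e (e.symm (a, Multiplicative.toAdd c))).1 : DihedralGroup m) = r a
          rw [h1]
        · change (e (e.symm (a, Multiplicative.toAdd c))).2 = c
          rw [h1]; rfl
      · refine ⟨sr (e.symm (a, Multiplicative.toAdd c)), ?_⟩
        have h1 := e.apply_symm_apply (a, Multiplicative.toAdd c)
        refine Prod.ext ?_ ?_
        · change (sr (e (e.symm (a, Multiplicative.toAdd c))).1 : DihedralGroup m) = sr a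
          rw [h1]
        · change (e (e.symm (a, Multiplicative.toAdd c))).2 = c
          rw [h1]; rfl
  exact ⟨(MulEquiv.ofBijective F hF).symm⟩

theorem succ_mem_closedSet_double {m b : ℕ} (hm : m % 2 = 1)
    (h : b ∈ closedSet (DihedralGroup m)) : b + 1 ∈ closedSet (DihedralGroup (m * 2)) := by
  obtain ⟨e⟩ := dihedral_iso hm
  exact closedSet_mono_iso e (succ_mem_closedSet_prod h)

end Q6.Dih
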