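import Pool.Agent.Q6.Dih.Encode
import Pool.Agent.Q6.Dih.NonGood
import Pool.Agent.Q6.Dih.Poly
import Pool.Agent.Q6.Dih.Prod

/-!
# The base size sets and the determining sets of the dihedral groups
-/

namespace Q6.Dih

open DihedralGroup

/-- The condition on `n`: it is a prime, or twice a prime, or every odd prime divisor of `n`
divides `n` at least twice. -/
def Good (n : ℕ) : Prop :=
  n.Prime ∨ (∃ p, p.Prime ∧ n = 2 * p) ∨ ∀ p, p.Prime → p ≠ 2 → p ∣ n → p ^ 2 ∣ n

section factors

variable {n : ℕ}

/-- the prime power factors -/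
def ppow (n : ℕ) (p : n.primeFactors) : ℕ := p.1 ^ n.factorization p.1

lemma prod_ppow (hn : n ≠ 0) : n = ∏ p : n.primeFactors, ppow n p := by
  conv_lhs => rw [← Nat.prod_factorization_pow_eq_self hn]
  unfold ppow
  rw [Finset.prod_coe_sort n.primeFactors (fun p => p ^ n.factorization p)]
  rfl

lemma ppow_pos_exp (p : n.primeFactors) : 0 < n.factorization p.1 :=
  Nat.pos_of_ne_zero (Finsupp.mem_support_iff.1 (by
    rw [Nat.support_factorization]; exact p.2))

lemma two_le_ppow (p : n.primeFactors) : 2 ≤ ppow n p := by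
  have hp := Nat.prime_of_mem_primeFactors p.2
  have h1 : p.1 ^ 1 ≤ p.1 ^ n.factorization p.1 :=
    Nat.pow_le_pow_right hp.pos (ppow_pos_exp p)
  rw [pow_one] at h1
  exact hp.two_le.trans h1

lemma ppow_coprime : Pairwise (Function.onFun Nat.Coprime (ppow n)) := by
  intro p q hpq
  apply Nat.Coprime.pow
  exact (Nat.coprime_primes (Nat.prime_of_mem_primeFactors p.2)
    (Nat.prime_of_mem_primeFactors q.2)).2 (fun h => hpq (Subtype.ext h))

end factors

lemma closedSet_subset (G : Type) [Group G] : closedSet G ⊆ baseSizeSet G := by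
  rintro b ⟨S, hfin, hact, hfaith, -, hb⟩
  exact ⟨S, hfin, hact, hfaith, hb⟩

lemma mem_closedSet_of_le {n k : ℕ} (hn : 2 ≤ n) (hk : 1 ≤ k) (hk2 : k ≤ n.primeFactors.card) :
    k ∈ closedSet (DihedralGroup n) := by
  classical
  obtain ⟨T, -, hT⟩ := Finset.exists_subset_card_eq
    (s := (Finset.univ : Finset n.primeFactors)) (n := k - 1) (by
      rw [Finset.card_univ, Fintype.card_coe]; omega)
  let N : Option T → ℕ := fun o => match o with
    | some p => ppow n p.1
    | none => ∏ p ∈ Tᶜ, ppow n p
  have hprod : n = ∏ o, N o := by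
    rw [Fintype.prod_option]
    change n = (∏ p ∈ Tᶜ, ppow n p) * ∏ p : T, ppow n p.1
    rw [Finset.prod_coe_sort T (fun p => ppow n p), mul_comm, Finset.prod_mul_prod_compl]
    exact prod_ppow (by omega)
  have hne : (Tᶜ).Nonempty := by
    rw [← Finset.card_pos, Finset.card_compl, Fintype.card_coe, hT]
    omega
  have hcop : ∀ p : T, Nat.Coprime (ppow n p.1) (∏ p ∈ Tᶜ, ppow n p) := by
    intro p
    apply Nat.Coprime.prod_right
    intro q hq
    apply ppow_coprime
    rintro rfl
    exact (Finset.mem_compl.1 hq) p.2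
  have hco : Pairwise (Function.onFun Nat.Coprime N) := by
    rintro (_ | p) (_ | q) hpq
    · exact absurd rfl hpq
    · exact (hcop q).symm
    · exact hcop p
    · apply ppow_coprime
      intro h
      exact hpq (congrArg some (Subtype.ext h))
  have hN : ∀ o, 2 ≤ N o := by
    rintro (_ | p)
    · obtain ⟨q, hq⟩ := hne
      have h1 : ppow n q ∣ ∏ p ∈ Tᶜ, ppow n p := Finset.dvd_prod_of_mem _ hq
      have h2 : 0 < ∏ p ∈ Tᶜ, ppow n p :=
        Finset.prod_pos fun p _ => by have := two_le_ppow p; omega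
      exact (two_le_ppow q).trans (Nat.le_of_dvd h2 h1)
    · exact two_le_ppow p.1
  have h := card_mem_closedSet hprod hco hN
  rw [Fintype.card_option, Fintype.card_coe, hT] at h
  have h2 : k - 1 + 1 = k := by omega
  rwa [h2] at h

lemma nonempty_primeFactors {n : ℕ} (hn : 2 ≤ n) : Nonempty n.primeFactors := by
  obtain ⟨p, hp, hpn⟩ := Nat.exists_prime_and_dvd (n := n) (by omega)
  exact ⟨⟨p, Nat.mem_primeFactors.2 ⟨hp, hpn, by omega⟩⟩⟩

lemma succ_mem_base {n : ℕ} (hn : 2 ≤ n) :
    n.primeFactors.card + 1 ∈ baseSizeSet (DihedralGroup n) := by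
  classical
  haveI := nonempty_primeFactors hn
  have h := succ_mem_baseSizeSet (prod_ppow (n := n) (by omega)) ppow_coprime two_le_ppow
  rwa [Fintype.card_coe] at h

lemma all_sq_mem {n : ℕ} (hn : 2 ≤ n) (h : ∀ p, p.Prime → p ∣ n → p ^ 2 ∣ n) :
    n.primeFactors.card + 1 ∈ closedSet (DihedralGroup n) := by
  classical
  haveI := nonempty_primeFactors hn
  have hn0 : n ≠ 0 := by omega
  have hexp : ∀ p : n.primeFactors, 2 ≤ n.factorization p.1 := by
    intro p
    have hp := Nat.prime_of_mem_primeFactors p.2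
    exact (hp.pow_dvd_iff_le_factorization hn0).1 (h p.1 hp (Nat.dvd_of_mem_primeFactors p.2))
  have h1 := succ_mem_closedSet (M := fun p : n.primeFactors => p.1 ^ (n.factorization p.1 - 1))
    (prod_ppow hn0) ppow_coprime
    (fun p => pow_dvd_pow _ (Nat.sub_le _ _))
    (fun p => by
      have hp := Nat.prime_of_mem_primeFactors p.2
      have h2 : p.1 ^ 1 ≤ p.1 ^ (n.factorization p.1 - 1) :=
        Nat.pow_le_pow_right hp.pos (by have := hexp p; omega)
      rw [pow_one] at h2
      exact hp.two_le.trans h2)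
    (fun p => by
      have hp := Nat.prime_of_mem_primeFactors p.2
      exact Nat.pow_lt_pow_right hp.one_lt (by have := hexp p; omega))
  rwa [Fintype.card_coe] at h1

lemma card_primeFactors_double {m : ℕ} (hm : m % 2 = 1) :
    (m * 2).primeFactors.card = m.primeFactors.card + 1 := by
  have hco : Nat.Coprime m 2 :=
    Nat.Coprime.symm ((Nat.Prime.coprime_iff_not_dvd Nat.prime_two).2 (by omega))
  rw [hco.primeFactors_mul, Finset.card_union_of_disjoint hco.disjoint_primeFactors,
    Nat.Prime.primeFactors Nat.prime_two, Finset.card_singleton]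

lemma good_mem {n : ℕ} (hn : 2 ≤ n) (hg : Good n) :
    n.primeFactors.card + 1 ∈ closedSet (DihedralGroup n) := by
  rcases hg with hp | ⟨p, hp, rfl⟩ | hsq
  · rw [hp.primeFactors, Finset.card_singleton]
    exact two_mem_closedSet hn
  · rcases hp.eq_two_or_odd with rfl | hodd
    · have h1 : (2 * 2).primeFactors.card = 1 := by
        rw [show 2 * 2 = 2 ^ 2 by norm_num, Nat.primeFactors_prime_pow (by norm_num) Nat.prime_two,
          Finset.card_singleton]
      rw [h1]
      exact two_mem_closedSet (by norm_num)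
    · rw [mul_comm, card_primeFactors_double hodd, hp.primeFactors, Finset.card_singleton]
      exact succ_mem_closedSet_double hodd (two_mem_closedSet hp.two_le)
  · by_cases h2 : 2 ∣ n ∧ ¬ 4 ∣ n
    · obtain ⟨⟨m, rfl⟩, h4⟩ := h2
      have hm : m % 2 = 1 := by
        by_contra hm
        apply h4
        obtain ⟨t, rfl⟩ : 2 ∣ m := by omega
        exact ⟨t, by ring⟩
      rw [mul_comm, card_primeFactors_double hm]
      rcases Nat.lt_or_ge m 2 with h5 | h5
      · have : m = 1 := by omega
        subst this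
        rw [Nat.primeFactors_one, Finset.card_empty]
        exact two_mem_closedSet (by norm_num)
      · apply succ_mem_closedSet_double hm
        apply all_sq_mem h5
        intro p hp hpm
        have hp2 : p ≠ 2 := by
          rintro rfl
          omega
        have h6 := hsq p hp hp2 (Dvd.dvd.mul_left hpm 2)
        have h7 : Nat.Coprime (p ^ 2) 2 :=
          Nat.Coprime.pow_left _ ((Nat.coprime_primes hp Nat.prime_two).2 hp2)
        exact h7.dvd_of_dvd_mul_left h6
    · apply all_sq_mem hn
      intro p hp hpn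
      by_cases hp2 : p = 2
      · subst hp2
        by_contra h5
        exact h2 ⟨hpn, h5⟩
      · exact hsq p hp hp2 hpn

lemma not_good_notMem {n : ℕ} (hn : 2 ≤ n) (hg : ¬ Good n) :
    n.primeFactors.card + 1 ∉ closedSet (DihedralGroup n) := by
  haveI : NeZero n := ⟨by omega⟩
  unfold Good at hg
  push Not at hg
  obtain ⟨h1, h2, p, hp, hp2, hpn, hpp⟩ := hg
  refine not_mem_closedSet hp hp2 hpn hpp ?_ ?_
  · rintro rfl
    exact h1 hp
  · exact h2 p hp

lemma baseSizeSet_subset {n : ℕ} (hn : 2 ≤ n) :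
    baseSizeSet (DihedralGroup n) ⊆ Set.Icc 1 (n.primeFactors.card + 1) := by
  haveI : NeZero n := ⟨by omega⟩
  rintro b ⟨S, hfin, hact, hfaith, rfl⟩
  exact ⟨one_le_baseSize, baseSize_le_succ⟩

theorem baseSizeSet_eq {n : ℕ} (hn : 2 ≤ n) :
    baseSizeSet (DihedralGroup n) = Set.Icc 1 (n.primeFactors.card + 1) := by
  apply Set.Subset.antisymm (baseSizeSet_subset hn)
  rintro k ⟨h1, h2⟩
  rcases Nat.lt_or_ge n.primeFactors.card k with h3 | h3
  · have : k = n.primeFactors.card + 1 := by omega
    rw [this]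
    exact succ_mem_base hn
  · exact closedSet_subset _ (mem_closedSet_of_le hn h1 h3)

theorem detSet_eq_of_good {n : ℕ} (hn : 2 ≤ n) (hg : Good n) :
    detSet (DihedralGroup n) = Set.Icc 1 (n.primeFactors.card + 1) := by
  rw [detSet_eq_closedSet]
  apply Set.Subset.antisymm ((closedSet_subset _).trans (baseSizeSet_subset hn))
  rintro k ⟨h1, h2⟩
  rcases Nat.lt_or_ge n.primeFactors.card k with h3 | h3
  · have : k = n.primeFactors.card + 1 := by omega
    rw [this]
    exact good_mem hn hg
  · exact mem_closedSet_of_le hn h1 h3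

theorem detSet_eq_of_not_good {n : ℕ} (hn : 2 ≤ n) (hg : ¬ Good n) :
    detSet (DihedralGroup n) = Set.Icc 1 n.primeFactors.card := by
  rw [detSet_eq_closedSet]
  apply Set.Subset.antisymm
  · intro k hk
    have h1 := baseSizeSet_subset hn (closedSet_subset _ hk)
    refine ⟨h1.1, ?_⟩
    by_contra hlt
    have h2 : k = n.primeFactors.card + 1 := by
      have := h1.2
      omega
    rw [h2] at hk
    exact not_good_notMem hn hg hk
  · rintro k ⟨h1, h2⟩
    exact mem_closedSet_of_le hn h1 h2

theorem detSet_eq_baseSizeSet_iff {n : ℕ} (hn : 2 ≤ n) :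
    detSet (DihedralGroup n) = baseSizeSet (DihedralGroup n) ↔ Good n := by
  constructor
  · intro h
    by_contra hg
    rw [detSet_eq_of_not_good hn hg, baseSizeSet_eq hn] at h
    have h1 : n.primeFactors.card + 1 ∈ Set.Icc 1 (n.primeFactors.card + 1) := ⟨by omega, le_rfl⟩
    rw [← h] at h1
    have := h1.2
    omega
  · intro hg
    rw [detSet_eq_of_good hn hg, baseSizeSet_eq hn]

end Q6.Dih
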