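import Pool.Agent.Q6.Dih.Defs

/-!
# Base sizes of faithful actions of dihedral groups: upper bounds
-/

namespace Q6.Dih

open DihedralGroup

section arith

variable {n : ℕ} [NeZero n]

lemma exists_prime_mem (H : AddSubgroup (ZMod n)) {i : ZMod n} (hi : i ∈ H) (h0 : i ≠ 0) :
    ∃ q, q.Prime ∧ q ∣ n ∧ ((n / q : ℕ) : ZMod n) ∈ H := by
  have hn : 0 < n := Nat.pos_of_ne_zero (NeZero.ne n)
  have hv : 0 < i.val := Nat.pos_of_ne_zero (fun h => h0 ((ZMod.val_eq_zero i).1 h))
  have hvn : i.val < n := ZMod.val_lt i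
  set g := Nat.gcd i.val n with hg
  have hgpos : 0 < g := Nat.gcd_pos_of_pos_left _ hv
  have hgn : g ∣ n := Nat.gcd_dvd_right _ _
  have hglt : g < n := lt_of_le_of_lt (Nat.le_of_dvd hv (Nat.gcd_dvd_left _ _)) hvn
  obtain ⟨t, ht⟩ := hgn
  have ht1 : t ≠ 1 := by
    rintro rfl
    omega
  obtain ⟨q, hq, s, hs⟩ := Nat.exists_prime_and_dvd ht1
  refine ⟨q, hq, ⟨g * s, by rw [ht, hs]; ring⟩, ?_⟩
  have h1 : n / q = s * g := by
    apply Nat.div_eq_of_eq_mul_right hq.pos
    rw [ht, hs]; ring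
  have hgH : ((g : ℕ) : ZMod n) ∈ H := by
    have h2 := Nat.gcd_eq_gcd_ab i.val n
    have h3 : ((g : ℕ) : ZMod n) = (Nat.gcdA i.val n) • i := by
      have h4 := congrArg (fun z : ℤ => (z : ZMod n)) h2
      simp only [Int.cast_natCast, Int.cast_add, Int.cast_mul, ZMod.natCast_self, zero_mul,
        add_zero, ZMod.natCast_zmod_val] at h4
      rw [hg, h4, zsmul_eq_mul, mul_comm]
    rw [h3]
    exact H.zsmul_mem hi _
  rw [h1, Nat.cast_mul, ← nsmul_eq_mul]
  exact H.nsmul_mem hgH _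

lemma eq_mul_of_mem (H : AddSubgroup (ZMod n)) {p : ℕ} (hp : p.Prime) (hpn : p ∣ n)
    (hpp : ¬ p ^ 2 ∣ n)
    (hH : ∀ q, q.Prime → q ∣ n → q ≠ p → ((n / q : ℕ) : ZMod n) ∉ H) {i : ZMod n} (hi : i ∈ H) :
    ∃ k : ℕ, i = k • ((n / p : ℕ) : ZMod n) := by
  have hn : 0 < n := Nat.pos_of_ne_zero (NeZero.ne n)
  have hpi : p • i ∈ H := H.nsmul_mem hi _
  have h0 : p • i = 0 := by
    by_contra h0
    obtain ⟨q, hq, hqn, hqm⟩ := exists_prime_mem (AddSubgroup.zmultiples (p • i))
      (AddSubgroup.mem_zmultiples _) h0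
    have hle : AddSubgroup.zmultiples (p • i) ≤ H := by
      rw [AddSubgroup.zmultiples_le]
      exact hpi
    by_cases hqp : q = p
    · subst hqp
      obtain ⟨z, hz⟩ := AddSubgroup.mem_zmultiples_iff.1 hqm
      have h1 := congrArg (ZMod.castHom hpn (ZMod q)) hz
      rw [map_zsmul, map_nsmul, map_natCast, nsmul_eq_mul, ZMod.natCast_self, zero_mul, smul_zero,
        eq_comm, ZMod.natCast_eq_zero_iff] at h1
      apply hpp
      obtain ⟨s, hs⟩ := h1
      refine ⟨s, ?_⟩
      have h2 : n = q * (n / q) := (Nat.mul_div_cancel' hpn).symm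
      rw [hs] at h2
      rw [h2]; ring
    · exact hH q hq hqn hqp (hle hqm)
  have h1 : n ∣ p * i.val := by
    rw [← ZMod.natCast_eq_zero_iff, Nat.cast_mul, ZMod.natCast_val, ZMod.cast_id', id_eq,
      ← nsmul_eq_mul]
    exact h0
  obtain ⟨s, hs⟩ := h1
  obtain ⟨m, hm⟩ := hpn
  have h2 : i.val = m * s := by
    have h3 : p * i.val = p * (m * s) := by
      rw [hs, ← mul_assoc, ← hm]
    exact Nat.eq_of_mul_eq_mul_left hp.pos h3
  have h3 : n / p = m := by
    rw [hm]; exact Nat.mul_div_cancel_left _ hp.pos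
  refine ⟨s, ?_⟩
  rw [h3, nsmul_eq_mul, ← Nat.cast_mul, mul_comm s m, ← h2, ZMod.natCast_val, ZMod.cast_id',
    id_eq]

lemma div_ne_zero {q : ℕ} (hq : q.Prime) (hqn : q ∣ n) : ((n / q : ℕ) : ZMod n) ≠ 0 := by
  have hn : 0 < n := Nat.pos_of_ne_zero (NeZero.ne n)
  intro h
  rw [ZMod.natCast_eq_zero_iff] at h
  have h1 : 0 < n / q := Nat.div_pos (Nat.le_of_dvd hn hqn) hq.pos
  have h2 : n / q < n := Nat.div_lt_self hn hq.one_lt
  exact absurd (Nat.le_of_dvd h1 h) (by omega)

end arith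

section act

variable {n : ℕ} [NeZero n] {S : Type} [MulAction (DihedralGroup n) S]

/-- the rotation of order `q` -/
abbrev rot (n q : ℕ) : DihedralGroup n := r ((n / q : ℕ) : ZMod n)

/-- the rotations which fix all points of a set -/
def fixSub (B : Set S) : AddSubgroup (ZMod n) where
  carrier := {i | ∀ x ∈ B, (r i : DihedralGroup n) • x = x}
  zero_mem' := by
    intro x _
    rw [r_zero, one_smul]
  add_mem' := by
    intro i j hi hj x hx
    rw [← r_mul_r, mul_smul, hj x hx, hi x hx]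
  neg_mem' := by
    intro i hi x hx
    have h1 := hi x hx
    calc (r (-i) : DihedralGroup n) • x = (r (-i) : DihedralGroup n) • (r i : DihedralGroup n) • x := by
          rw [h1]
      _ = x := by rw [← mul_smul, r_mul_r, neg_add_cancel, r_zero, one_smul]

lemma mem_fixSub {B : Set S} {i : ZMod n} :
    i ∈ fixSub (n := n) B ↔ ∀ x ∈ B, (r i : DihedralGroup n) • x = x := Iff.rfl

/-- If every rotation of prime order moves a point of `B`, then only the trivial rotation fixes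
all points of `B`. -/
lemma rot_trivial {B : Set S} (hB : ∀ q, q.Prime → q ∣ n → ∃ x ∈ B, rot n q • x ≠ x) {i : ZMod n}
    (hi : ∀ x ∈ B, (r i : DihedralGroup n) • x = x) : i = 0 := by
  by_contra h0
  obtain ⟨q, hq, hqn, hqm⟩ := exists_prime_mem (fixSub (n := n) B) (mem_fixSub.2 hi) h0
  obtain ⟨x, hx, hx2⟩ := hB q hq hqn
  exact hx2 (hqm x hx)

lemma refl_unique {B : Set S} (hB : ∀ q, q.Prime → q ∣ n → ∃ x ∈ B, rot n q • x ≠ x) {i j : ZMod n}
    (hi : ∀ x ∈ B, (sr i : DihedralGroup n) • x = x)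
    (hj : ∀ x ∈ B, (sr j : DihedralGroup n) • x = x) : i = j := by
  have h1 : j - i = 0 := by
    apply rot_trivial hB
    intro x hx
    rw [← sr_mul_sr, mul_smul, hj x hx, hi x hx]
  exact (sub_eq_zero.1 h1).symm

lemma isBase_of_no_refl {B : Finset S} (hB : ∀ q, q.Prime → q ∣ n → ∃ x ∈ B, rot n q • x ≠ x)
    (h : ∀ j, ¬ ∀ x ∈ B, (sr j : DihedralGroup n) • x = x) : IsBase (DihedralGroup n) S B := by
  intro g hg
  rcases g with i | j
  · have h0 : i = 0 := rot_trivial (B := (B : Set S)) (by simpa using hB) (by simpa using hg)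
    rw [h0, r_zero]
  · exact absurd hg (h j)

variable [FaithfulSMul (DihedralGroup n) S]

lemma exists_moved {g : DihedralGroup n} (hg : g ≠ 1) : ∃ x : S, g • x ≠ x := by
  by_contra h
  push Not at h
  exact hg (FaithfulSMul.eq_of_smul_eq_smul (α := S) (fun x => by rw [h x, one_smul]))

lemma rot_ne_one {q : ℕ} (hq : q.Prime) (hqn : q ∣ n) : rot n q ≠ 1 := by
  intro h
  rw [one_def] at h
  exact div_ne_zero hq hqn (r.inj h)

lemma sr_ne_one (j : ZMod n) : (sr j : DihedralGroup n) ≠ 1 := by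
  intro h
  rw [one_def] at h
  cases h

lemma exists_base_succ {B : Finset S} (hB : ∀ q, q.Prime → q ∣ n → ∃ x ∈ B, rot n q • x ≠ x) :
    ∃ B' : Finset S, B'.card ≤ B.card + 1 ∧ IsBase (DihedralGroup n) S B' := by
  classical
  by_cases h : ∃ j, ∀ x ∈ B, (sr j : DihedralGroup n) • x = x
  · obtain ⟨j, hj⟩ := h
    obtain ⟨y, hy⟩ := exists_moved (S := S) (sr_ne_one j)
    refine ⟨insert y B, Finset.card_insert_le _ _, ?_⟩
    apply isBase_of_no_refl
    · intro q hq hqn
      obtain ⟨x, hx, hx2⟩ := hB q hq hqn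
      exact ⟨x, Finset.mem_insert_of_mem hx, hx2⟩
    · intro i hi
      have h1 : i = j := refl_unique (B := (B : Set S)) (by simpa using hB)
        (fun x hx => hi x (Finset.mem_insert_of_mem (by simpa using hx))) (by simpa using hj)
      subst h1
      exact hy (hi y (Finset.mem_insert_self _ _))
  · push Not at h
    refine ⟨B, Nat.le_succ _, isBase_of_no_refl hB ?_⟩
    intro j hj
    obtain ⟨x, hx, hx2⟩ := h j
    exact hx2 (hj x hx)

omit [MulAction (DihedralGroup n) S] [FaithfulSMul (DihedralGroup n) S] in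
lemma nonempty_of_faithful (n : ℕ) [NeZero n] (S : Type) [MulAction (DihedralGroup n) S]
    [FaithfulSMul (DihedralGroup n) S] : Nonempty S := by
  obtain ⟨x, -⟩ := exists_moved (S := S) (n := n) (sr_ne_one 0)
  exact ⟨x⟩

theorem baseSize_le_succ : baseSize (DihedralGroup n) S ≤ n.primeFactors.card + 1 := by
  classical
  have hn : n ≠ 0 := NeZero.ne n
  have h1 : ∀ q : n.primeFactors, ∃ x : S, rot n q.1 • x ≠ x := fun q =>
    exists_moved (rot_ne_one (Nat.prime_of_mem_primeFactors q.2) (Nat.dvd_of_mem_primeFactors q.2))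
  choose x hx using h1
  obtain ⟨B', h2, h3⟩ := exists_base_succ (n := n) (S := S)
    (B := (Finset.univ : Finset n.primeFactors).image x) (by
      intro q hq hqn
      exact ⟨x ⟨q, Nat.mem_primeFactors.2 ⟨hq, hqn, hn⟩⟩,
        Finset.mem_image_of_mem _ (Finset.mem_univ _),
        hx ⟨q, Nat.mem_primeFactors.2 ⟨hq, hqn, hn⟩⟩⟩)
  refine (baseSize_le h3).trans (h2.trans (Nat.add_le_add_right ?_ 1))
  refine Finset.card_image_le.trans ?_
  rw [Finset.card_univ, Fintype.card_coe]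

end act

end Q6.Dih
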